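import Pool.Agent.Helper67_AHH.Bas
import Pool.Agent.Helper81_AND2B.FLX
import Pool.Agent.Helper16_AND.Viol

/-!
# AND2B: the flux to the dead sites (helper67)
-/

set_option autoImplicit false

open scoped BigOperators NNReal ENNReal Matrix

noncomputable section

namespace Pool.Agent.AHH.H67

open Pool.Agent.BED (Tor adj)
open Pool.Agent.LE.QF (BB KK qf)
open Pool.Agent.AND2B
open Pool.Agent.ANP (Cfg Geo Fc)

/-- the constant of FLX -/
def CF (d : ℕ) : ℝ := (AND2B.H81.flx d).choose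

theorem one_le_CF (d : ℕ) : 1 ≤ CF d := (AND2B.H81.flx d).choose_spec.1

variable {d M : ℕ} [NeZero M]

/-- the flux to the dead sites of `T`, for a configuration `T'` with the same potential at the dead
sites of `T` -/
theorem flx_dead {V : Env d M} {T T' : Cfg (Tor d M)} {κv : ℝ} (hL : 1 ≤ V.L) (he : 0 < V.e₀)
    (hLe : 2 * V.L * V.e₀ ≤ 1) (hk : 0 < κv) (hk1 : κv ≤ 1) (hV : ¬ Viol V.E V.L T)
    (hd : ∀ x, T.s x = 0 → T'.s x = 0 ∧ T'.V x = T.V x)
    (ha : ∀ x ∈ Al T, κv ≤ kap V.e₀ T' x) (x : Tor d M) :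
    ∑ y ∈ (Al T)ᶜ, kap V.e₀ T' y * KK (net V.E V.e₀ T') x y ≤
      V.e₀ * (CF d * V.L ^ 2 / κv) ^ 2 := by
  have hdead : ∀ y ∈ (Al T)ᶜ, T.s y = 0 := by
    intro y hy
    rw [Finset.mem_compl, mem_Al, not_lt] at hy
    exact le_antisymm hy zero_le
  have hW0 : WLD V.E V.L T.V (Al T)ᶜ := by
    by_contra hc
    exact hV ⟨(Al T)ᶜ, hdead, hc⟩
  have hW : WLD V.E V.L (Vef T') (Al T)ᶜ := by
    refine AND2B.H16.wld_congr V.E V.L (Vef T') T.V _ (fun y hy => ?_) hW0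
    obtain ⟨h1, h2⟩ := hd y (hdead y hy)
    unfold Vef
    rw [h1, h2]
    simp
  have h := ((AND2B.H81.flx d).choose_spec.2 M (Vef T') (kap V.e₀ T') V.E V.L V.e₀ κv (Al T)ᶜ hL he
    hLe hk hk1 (fun y hy => by
      unfold kap
      rw [(hd y (hdead y hy)).1]
      simp) (fun y hy => ha y (by
      rw [Finset.mem_compl, not_not] at hy
      exact hy)) hW).2 x
  exact h

end Pool.Agent.AHH.H67
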