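import Pool.Agent.Helper67_AHH.Form
import Pool.Agent.Helper67_AHH.Flx
import Pool.Agent.Helper89_FAR.Plt

/-!
# AND2B: the hypotheses of the block lemma hold for a good configuration (helper67)
-/

set_option autoImplicit false

open scoped BigOperators NNReal ENNReal Matrix

noncomputable section

namespace Pool.Agent.AHH.H67

open Pool.Agent.BED (Tor adj)
open Pool.Agent.LE.QF (BB KK qf)
open Pool.Agent.AND2B
open Pool.Agent.ANP (Cfg Geo Fc)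
open Pool.Agent.AFJ (ind LaR EE)
open Pool.Agent.AFL (Fl)
open Pool.Agent.LTG (Fm Bd sT tT qd Box)

variable {d M : ℕ} [NeZero M]

/-- the numbers of the block lemma, without the form -/
structure BNum (V : Env d M) (bd : Bud) (n k : ℕ) (rG : ℝ) (p : Par) : Prop where
  κv : 0 < p.κv ∧ p.κv ≤ 1 ∧ p.κv ≤ V.c₀ * V.cl (k + 1)
  inc : 0 ≤ bd.inc n k
  mis : (bd.q n k).mis + bd.inc n k * V.Cp ≤ p.N * p.δ
  r : 1 ≤ p.r ∧ rG + (bd.q n k).del + bd.inc n k * V.Cp + p.δ ≤ p.r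
  lam : 0 ≤ (bd.q n k).lam ∧ 0 ≤ bd.inL n k ∧
    (bd.q n k).lam * (1 + bd.inL n k * V.Cp) ≤ p.L / 2
  wl : 1 ≤ V.L ∧ 2 * V.L * V.e₀ ≤ 1 ∧ V.e₀ * (CF d * V.L ^ 2 / p.κv) ^ 2 ≤ p.δ
  num : 0 ≤ p.N ∧ 0 < p.δ ∧ 0 < p.L ∧ 0 < p.ω ∧ p.ω ≤ 1 / 2 ∧ 0 ≤ p.ε ∧ p.ε ≤ 1 ∧ 0 ≤ p.s1 ∧
    0 ≤ p.s2 ∧ 0 < p.ε₁ ∧ p.ε₁ ≤ 1 ∧ 0 < p.δY ∧ 1 ≤ p.n ∧ p.n ≤ p.nL
  hs3 : 0 ≤ p.s3 ∧ 0 ≤ p.old
  hTv : (1 - (V.th : ℝ)) * V.cl k * V.C₀ ≤ p.κv ∧ 2 * p.r * ((1 - (V.th : ℝ)) * V.cl k) ≤ p.κv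
  hδ : (p.N + 2) * p.δ ≤ V.c₀ / 2
  hz : 0 ≤ p.z ∧ 16 * ((p.N + 1) * p.δ) ^ 4 * p.r ^ 3 ≤ p.z ^ 4 * (p.ω * p.L) * p.κv ^ 5
  hL0 : 1 ≤ p.L0 ∧ p.κv * (16 * (V.C₀ ^ 2 * p.s2 * (p.r / p.κv) ^ 2 / (p.ω * p.L)) + 2 * p.z) *
    p.L0 ≤ 1

/-- locality, for every configuration `T'` which agrees with `T` off `b` -/
def Lcl (V : Env d M) (T : Cfg (Tor d M)) (b Q1 Yg : Finset (Tor d M)) (k : ℕ) (p : Par) : Prop :=
  ∀ T' : Cfg (Tor d M), T'.mb = T.mb → (∀ x, x ∉ b → T'.V x = T.V x ∧ T'.s x = T.s x) →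
    (∀ x ∈ b, V.cl (k + 1) ≤ T'.s x) →
    (∀ x ∈ Al T, x ∉ Q1 → ∑ c ∈ b, KK (net V.E V.e₀ T') x c ^ 2 ≤ p.L ∧
      ‖net V.E V.e₀ T' x x - net V.E V.e₀ T x x‖ ≤ p.δ) ∧
    ∀ c ∈ b, ∑ x ∈ Al T \ Yg, kap V.e₀ T' x * KK (net V.E V.e₀ T') x c ≤ p.old

section

variable {V : Env d M} {bd : Bud} {n k kB J1 J2 : ℕ} {p : Par} {T₀ T : Cfg (Tor d M)}
  {run₀ run P : Finset (Tor d M)}

/-- FLO IS APPLICABLE -/
theorem flOf_ok (hd : 3 ≤ d) (hMd : Md V bd n k T₀ run₀ P T run) (hE : EOk V k)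
    (hF : Fc V.Γ V.kk V.cl V.Dn n k P T run) (hN : FNum V bd n k kB J1 J2 p) {rG : ℝ}
    (hB : BNum V bd n k rG p) (hG₀ : ∀ x, ‖V.G₀ x x‖ ≤ rG)
    (hPsi : ∀ x, Psi V.Γ n P x ≤ V.Cp) (hVi : ¬ Viol V.E V.L T)
    (a : Tor d M) (hkB : 2 ^ kB ≤ M) (b Q Q1 : Finset (Tor d M)) (hbr : b ⊆ run)
    (hbP : Disjoint b P) (hbQ : b ⊆ Q1) (hQ1 : Q1 ⊆ Q) (hQ : ∀ x ∈ Q, x ∈ Al T ∧ Box a (2 ^ kB) x)
    (hZ : ((2 : ℝ) ^ kB) ^ d ≤
      4 * ((Finset.univ.filter fun x => Box a (2 ^ kB) x ∧ x ∈ Al T ∧ x ∉ Q).card : ℝ))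
    (hloc : Lcl V T b Q1 (Yo V n T) k p) :
    (flOf V T b Q Q1 run (run \ P) (Yo V n T) k p).Ok V.c₀ V.C₀ := by
  set F := flOf V T b Q Q1 run (run \ P) (Yo V n T) k p with hFdef
  have hth := hE.th
  have hc := hE.c₀
  have hcl := hE.cl
  have hcl' := hE.cl'
  have hfc := fc_run hF hE
  have halv := fc_alv hF hE
  have hgau := md_gau hMd hE
  have hT0 : 0 < (1 - (V.th : ℝ)) * V.cl k := mul_pos (by linarith) hcl.1
  have hTeq : (1 - (V.th : ℝ)) * V.cl k = V.cl k - V.cl (k + 1) := by rw [hcl.2]; ring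
  -- the block
  have hbs : ∀ x ∈ b, T.s x = V.cl k := fun x hx =>
    hfc.2.1 x (hbr hx) (Finset.disjoint_left.1 hbP hx)
  have hbsR : ∀ x ∈ b, (T.s x : ℝ) = V.cl k := fun x hx => by rw [hbs x hx]
  have hle : ∀ t : ℝ, t ≤ (1 - (V.th : ℝ)) * V.cl k → ∀ x ∈ b, t ≤ T.s x := fun t ht x hx => by
    rw [hbsR x hx]
    rw [hTeq] at ht
    linarith [hcl'.1]
  -- the network at the time `t`
  have hcfg : ∀ (t : ℝ) (ζ : Tor d M → ℝ), 0 ≤ t → t ≤ (1 - (V.th : ℝ)) * V.cl k →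
      (∀ x, x ∉ b → (cfg T b t ζ).V x = T.V x ∧ (cfg T b t ζ).s x = T.s x) ∧
      (∀ x ∈ b, V.cl (k + 1) ≤ (cfg T b t ζ).s x) ∧
      (∀ x ∈ b, ((cfg T b t ζ).s x : ℝ) = V.cl k - t) := by
    intro t ζ h0 h1
    obtain ⟨c1, c2⟩ := cfg_s (ζ := ζ) h0 (hle t h1)
    refine ⟨fun x hx => ⟨(c2 x hx).2, (c2 x hx).1⟩, fun x hx => ?_, fun x hx => ?_⟩
    · have h2 := (c1 x hx).1
      rw [hbsR x hx] at h2
      rw [hTeq] at h1
      rw [← NNReal.coe_le_coe, h2]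
      linarith
    · have h2 := (c1 x hx).1
      rw [hbsR x hx] at h2
      exact h2
  have hkap : ∀ (t : ℝ) (v : b → ℝ), 0 ≤ t → t ≤ (1 - (V.th : ℝ)) * V.cl k →
      (∀ x ∈ Al T, V.c₀ * V.cl (k + 1) ≤ kap V.e₀ (cfg T b t (ext b v)) x) := by
    intro t v h0 h1 x hx
    obtain ⟨c1, c2, _⟩ := hcfg t (ext b v) h0 h1
    have h2 : (V.cl (k + 1) : ℝ) ≤ (cfg T b t (ext b v)).s x := by
      by_cases hxb : x ∈ b
      · exact_mod_cast c2 x hxb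
      · rw [(c1 x hxb).2]
        exact (hfc.2.2.2 x hx).1
    have h3 := (hgau x hx).1
    unfold kap
    have h4 : V.cl (k + 1) * V.c₀ ≤ ((cfg T b t (ext b v)).s x : ℝ) * (T.mb x).im :=
      mul_le_mul h2 h3 hc.1.le (NNReal.coe_nonneg _)
    have h5 : (cfg T b t (ext b v)).mb x = T.mb x := rfl
    rw [h5]
    linarith [hE.e₀]
  have hpt : ∀ (t : ℝ) (v : b → ℝ), 0 ≤ t → t ≤ (1 - (V.th : ℝ)) * V.cl k →
      F.Gt (t, v) = net V.E V.e₀ (cfg T b t (ext b v)) ∧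
      ∀ x, F.k t x = kap V.e₀ (cfg T b t (ext b v)) x := fun t v h0 h1 =>
    at_cfg V T b t v h0 (hle t h1)
  obtain ⟨hG0, hk0⟩ := H58.fl_G0 F V.E V.e₀ T b rfl
  have hkT : ∀ x ∈ Al T, V.c₀ * V.cl (k + 1) ≤ F.k ((1 - (V.th : ℝ)) * V.cl k) x := fun x hx => by
    rw [(hpt _ (fun _ => 0) hT0.le le_rfl).2 x]
    exact hkap _ _ hT0.le le_rfl x hx
  have hkpos : ∀ t x, 0 ≤ t → t ≤ (1 - (V.th : ℝ)) * V.cl k → 0 < F.k t x := by
    intro t x h0 h1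
    rw [(hpt t (fun _ => 0) h0 h1).2 x]
    by_cases hx : x ∈ Al T
    · exact lt_of_lt_of_le (mul_pos hc.1 hcl'.1) (hkap t _ h0 h1 x hx)
    · have hxb : x ∉ b := fun h => hx (halv (hbr h))
      unfold kap
      rw [((hcfg t _ h0 h1).1 x hxb).2]
      rw [mem_Al, not_lt] at hx
      have h2 : T.s x = 0 := le_antisymm hx zero_le
      rw [h2]
      simp [hE.e₀]
  have hPn : ∀ x, bd.inc n k * Psi V.Γ n P x ≤ bd.inc n k * V.Cp := fun x =>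
    mul_le_mul_of_nonneg_left (hPsi x) hB.inc
  have hAl0 := md_al hMd hE
  have hww : ∀ x, F.k 0 x * F.g x = ww V.e₀ T x := fun x => by
    rw [hk0 x]
    rfl
  have hS := md_hS hd hMd hE hF hN hPsi a hkB Q hQ hZ
  have hqf : ∀ f : Tor d M → ℝ, qf F.E0 f = qd (Ef V.E V.e₀ T) f := fun f => by
    have h1 : F.E0 = Ef V.E V.e₀ T := by
      unfold Fl.E0 Ef
      rw [hG0]
      have h2 : F.k 0 = kap V.e₀ T := funext hk0
      rw [h2]
      rfl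
    rw [h1]
    rfl
  constructor
  · -- sym
    intro x y
    show (adj d M + Matrix.diagonal T.V) x y = (adj d M + Matrix.diagonal T.V) y x
    rw [Matrix.add_apply, Matrix.add_apply, ANR.H89.adj_symm x y]
    by_cases hxy : x = y
    · rw [hxy]
    · rw [Matrix.diagonal_apply_ne _ hxy, Matrix.diagonal_apply_ne _ (Ne.symm hxy)]
  · exact hT0
  · exact hkpos
  · refine ⟨fun x hx => ?_, Finset.sdiff_subset, halv⟩
    exact Finset.mem_sdiff.2 ⟨hbr hx, Finset.disjoint_left.1 hbP hx⟩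
  · exact ⟨hbQ, hQ1, fun x hx => (hQ x hx).1⟩
  · exact fun x hx => hB.κv.2.2.trans (hkT x (halv hx))
  · exact fun x hx => ⟨(hgau x hx).1, (hgau x hx).2.1⟩
  · -- the mismatch
    intro x hx
    rw [hG0]
    have hxr : x ∈ run := hx
    have h1 := hMd.ent x (halv hxr) x (halv hxr)
    have h2 := hMd.st0.mis x (hMd.sub hxr)
    have h3 : T.mb x = T₀.mb x := by rw [hMd.mb]
    have h4 : net V.E V.e₀ T x x - T.mb x = (net V.E V.e₀ T x x - net V.E V.e₀ T₀ x x) +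
        (net V.E V.e₀ T₀ x x - T₀.mb x) := by rw [h3]; ring
    have h5 : ‖net V.E V.e₀ T x x - T.mb x‖ ≤ bd.inc n k * Psi V.Γ n P x + (bd.q n k).mis := by
      rw [h4]
      exact (norm_add_le _ _).trans (add_le_add h1 h2)
    show ‖net V.E V.e₀ T x x - T.mb x‖ ≤ p.N * p.δ
    linarith [hPn x, hB.mis]
  · -- the size of the resolvent
    intro x hx
    rw [hG0]
    have hxA := (hQ x hx).1
    have hxA0 : x ∈ Al T₀ := by rw [← hAl0]; exact hxA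
    have h1 := hMd.ent x hxA x hxA
    have h2 := hMd.st0.ent x hxA0 x hxA0
    have h3 := hG₀ x
    have h4 : ‖net V.E V.e₀ T x x‖ ≤ bd.inc n k * Psi V.Γ n P x + (bd.q n k).del + rG := by
      have h5 : net V.E V.e₀ T x x = (net V.E V.e₀ T x x - net V.E V.e₀ T₀ x x) +
        (net V.E V.e₀ T₀ x x - V.G₀ x x) + V.G₀ x x := by ring
      rw [h5]
      exact (norm_add_le _ _).trans (add_le_add ((norm_add_le _ _).trans (add_le_add h1 h2)) h3)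
    have h5 := Complex.im_le_norm (net V.E V.e₀ T x x)
    show (net V.E V.e₀ T x x).im + p.δ ≤ p.r
    linarith [hPn x, hB.r.2]
  · -- the sums of the fourth powers
    intro x hx
    rw [hG0]
    have hxA := (hQ x (hQ1 hx)).1
    have h1 := hMd.lar x hxA
    have h2 : LaR (net V.E V.e₀ T) F.R x ≤ LaR (net V.E V.e₀ T) run x := by
      unfold LaR
      exact Finset.sum_le_sum_of_subset_of_nonneg Finset.inter_subset_left
        fun _ _ _ => sq_nonneg _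
    have h3 : (bd.q n k).lam * (1 + bd.inL n k * Psi V.Γ n P x) ≤
        (bd.q n k).lam * (1 + bd.inL n k * V.Cp) :=
      mul_le_mul_of_nonneg_left (by
        have := mul_le_mul_of_nonneg_left (hPsi x) hB.lam.2.1
        linarith) hB.lam.1
    exact h2.trans (h1.trans (h3.trans hB.lam.2.2))
  · -- locality
    rintro ⟨t, v⟩ h0 h1
    simp only at h0 h1
    obtain ⟨e1, e2⟩ := hpt t v h0 h1
    obtain ⟨c1, c2, _⟩ := hcfg t (ext b v) h0 h1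
    obtain ⟨l1, l2⟩ := hloc (cfg T b t (ext b v)) rfl c1 c2
    constructor
    · intro x hx hx1
      rw [e1, hG0]
      exact l1 x hx hx1
    · intro x hx
      rw [e1]
      have h2 : ∀ y, F.k t y = kap V.e₀ (cfg T b t (ext b v)) y := e2
      have h3 : ∑ y ∈ F.Aᶜ, F.k t y * KK (net V.E V.e₀ (cfg T b t (ext b v))) x y =
          ∑ y ∈ (Al T)ᶜ, kap V.e₀ (cfg T b t (ext b v)) y *
            KK (net V.E V.e₀ (cfg T b t (ext b v))) x y :=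
        Finset.sum_congr rfl fun y _ => by rw [h2 y]
      show ∑ y ∈ F.Aᶜ, F.k t y * KK (net V.E V.e₀ (cfg T b t (ext b v))) x y ≤ p.δ
      rw [h3]
      refine (flx_dead hB.wl.1 hE.e₀ hB.wl.2.1 hB.κv.1 hB.κv.2.1 hVi (fun y hy => ?_)
        (fun y hy => hB.κv.2.2.trans (hkap t v h0 h1 y hy)) x).trans hB.wl.2.2
      have hyb : y ∉ b := fun h => by
        have h4 := halv (hbr h)
        rw [mem_Al, hy] at h4
        exact lt_irrefl _ h4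
      exact ⟨by rw [(c1 y hyb).2, hy], (c1 y hyb).1⟩
  · -- the old nodes
    rintro ⟨t, v⟩ h0 h1 c hcb
    simp only at h0 h1
    obtain ⟨e1, e2⟩ := hpt t v h0 h1
    obtain ⟨c1, c2, _⟩ := hcfg t (ext b v) h0 h1
    obtain ⟨l1, l2⟩ := hloc (cfg T b t (ext b v)) rfl c1 c2
    have h3 : ∑ x ∈ F.A \ F.Yg, F.k t x * KK (F.Gt (t, v)) x c =
        ∑ x ∈ Al T \ Yo V n T, kap V.e₀ (cfg T b t (ext b v)) x *
          KK (net V.E V.e₀ (cfg T b t (ext b v))) x c :=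
      Finset.sum_congr rfl fun y _ => by rw [e1, e2 y]
    show ∑ x ∈ F.A \ F.Yg, F.k t x * KK (F.Gt (t, v)) x c ≤ p.old
    rw [h3]
    exact l2 c hcb
  · -- hS1
    intro f φ hf hφ
    have h1 := hS.1 f φ hf hφ
    rw [hqf f]
    have h2 : ∑ x ∈ F.Q, φ x ^ 2 / (F.k 0 x * F.g x) = ∑ x ∈ Q, φ x ^ 2 / ww V.e₀ T x :=
      Finset.sum_congr rfl fun x _ => by rw [hww x]
    rw [h2]
    exact h1
  · -- hS2
    intro f φ hf hφ
    have h1 := hS.2 f φ hf hφ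
    rw [hqf f]
    have h2 : ∑ x ∈ F.R, φ x ^ 2 / (F.k 0 x * F.g x) =
        ∑ x ∈ run ∩ Q, φ x ^ 2 / ww V.e₀ T x :=
      Finset.sum_congr rfl fun x _ => by rw [hww x]
    rw [h2]
    exact h1
  · -- block Y
    have hP0 : ∀ x ∈ run, pv T run (V.cl (k + 1)) x = (T.s x : ℝ) - V.cl (k + 1) := fun x hx => by
      unfold pv ind
      rw [if_pos hx, one_mul]
    have hP1 : ∀ x, x ∉ run → pv T run (V.cl (k + 1)) x = 0 := fun x hx => by
      unfold pv ind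
      rw [if_neg hx, zero_mul]
    refine ⟨fun x => ?_, fun x hx => ?_, fun x hx => ?_, fun x hx => ?_⟩
    · show 0 ≤ pv T run (V.cl (k + 1)) x
      by_cases hr : x ∈ run
      · rw [hP0 x hr]
        linarith [(hfc.1 x hr).1]
      · rw [hP1 x hr]
    · show pv T run (V.cl (k + 1)) x = 0
      by_cases hr : x ∈ run
      · have hxP : x ∈ P := by
          by_contra hc'
          exact hx (Finset.mem_sdiff.2 ⟨hr, hc'⟩)
        rw [hP0 x hr, hfc.2.2.1 x hr hxP, sub_self]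
      · exact hP1 x hr
    · show (1 - (V.th : ℝ)) * V.cl k ≤ pv T run (V.cl (k + 1)) x
      rw [hP0 x (hbr hx), hbsR x hx, hTeq]
    · show 2 * (pv T run (V.cl (k + 1)) x * gg T x) ≤ F.k ((1 - (V.th : ℝ)) * V.cl k) x
      have hr : x ∈ run := (Finset.mem_sdiff.1 hx).1
      have hxP : x ∉ P := (Finset.mem_sdiff.1 hx).2
      rw [hP0 x hr, hfc.2.1 x hr hxP, (hpt _ (fun _ => 0) hT0.le le_rfl).2 x]
      have hg := (hgau x (halv hr)).1
      have hg0 : 0 < gg T x := by linarith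
      have h2 : (V.cl (k + 1) : ℝ) ≤
          (cfg T b ((1 - (V.th : ℝ)) * V.cl k) (ext b fun _ => 0)).s x := by
        by_cases hxb : x ∈ b
        · exact_mod_cast (hcfg _ _ hT0.le le_rfl).2.1 x hxb
        · rw [((hcfg _ _ hT0.le le_rfl).1 x hxb).2]
          exact (hfc.1 x hr).1
      have h3 : V.cl (k + 1) * gg T x ≤
          ((cfg T b ((1 - (V.th : ℝ)) * V.cl k) (ext b fun _ => 0)).s x : ℝ) * gg T x :=
        mul_le_mul_of_nonneg_right h2 hg0.le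
      have h4 : 2 * ((V.cl k : ℝ) - V.cl (k + 1)) ≤ V.cl (k + 1) := by
        rw [hcl.2]
        nlinarith [hcl.1, hth.1]
      have h5 : 2 * ((V.cl k - V.cl (k + 1)) * gg T x) ≤ V.cl (k + 1) * gg T x := by
        nlinarith
      unfold kap
      have h6 : ((cfg T b ((1 - (V.th : ℝ)) * V.cl k) (ext b fun _ => 0)).mb x).im = gg T x := rfl
      rw [h6]
      linarith [hE.e₀]
  · -- the weights
    have hW0 : ∀ x ∈ run, pw T run (V.cl (k + 1)) x = V.cl (k + 1) * gg T x := fun x hx => by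
      unfold pw ind
      rw [if_pos hx, one_mul]
    have hW1 : ∀ x, x ∉ run → pw T run (V.cl (k + 1)) x = 0 := fun x hx => by
      unfold pw ind
      rw [if_neg hx, zero_mul]
    refine ⟨fun x => ?_, fun x hx => hW1 x hx⟩
    by_cases hr : x ∈ run
    · show 0 ≤ pw T run (V.cl (k + 1)) x ∧
        pw T run (V.cl (k + 1)) x ≤ F.k ((1 - (V.th : ℝ)) * V.cl k) x
      rw [hW0 x hr, (hpt _ (fun _ => 0) hT0.le le_rfl).2 x]
      have hg := (hgau x (halv hr)).1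
      have hg0 : 0 < gg T x := by linarith
      have h2 : (V.cl (k + 1) : ℝ) ≤
          (cfg T b ((1 - (V.th : ℝ)) * V.cl k) (ext b fun _ => 0)).s x := by
        by_cases hxb : x ∈ b
        · exact_mod_cast (hcfg _ _ hT0.le le_rfl).2.1 x hxb
        · rw [((hcfg _ _ hT0.le le_rfl).1 x hxb).2]
          exact (hfc.1 x hr).1
      have h3 : V.cl (k + 1) * gg T x ≤
          ((cfg T b ((1 - (V.th : ℝ)) * V.cl k) (ext b fun _ => 0)).s x : ℝ) * gg T x :=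
        mul_le_mul_of_nonneg_right h2 hg0.le
      refine ⟨mul_nonneg hcl'.1.le hg0.le, ?_⟩
      unfold kap
      have h6 : ((cfg T b ((1 - (V.th : ℝ)) * V.cl k) (ext b fun _ => 0)).mb x).im = gg T x := rfl
      rw [h6]
      linarith [hE.e₀]
    · show 0 ≤ pw T run (V.cl (k + 1)) x ∧
        pw T run (V.cl (k + 1)) x ≤ F.k ((1 - (V.th : ℝ)) * V.cl k) x
      rw [hW1 x hr]
      exact ⟨le_refl _, (hkpos _ x hT0.le le_rfl).le⟩
  · -- numbers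
    obtain ⟨n1, n2, n3, n4, n5, n6, n7, n8, n9, n10, n11, n12, n13, n14⟩ := hB.num
    exact ⟨hB.κv.1, hB.κv.2.1, hB.r.1, hc.1, hc.2.1, hc.2.2, n1, n2, n3, n4, n5, n6, n7, n8, n9, n10,
      n11, n12, n13, n14⟩
  · exact hB.hs3
  · exact hB.hTv
  · exact hB.hδ
  · exact hB.hz
  · exact hB.hL0

end

end Pool.Agent.AHH.H67
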