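import Pool.Agent.Helper67_AHH.FNm

/-!
# AND2B: the numbers of the form for the concrete budget (helper67)
-/

set_option autoImplicit false

open scoped BigOperators NNReal

noncomputable section

namespace Pool.Agent.AHH.H67

open Pool.Agent.BED (Tor)
open Pool.Agent.AND2B (Ev Fld)
open Pool.Agent.AND.Num
open Pool.Agent.AHH.H61
open Pool.Agent.AHH.H17 (parZ kg)
open Pool.Agent.NAS (CS)
open Pool.Agent.MAJ (S0 S2)

section

variable {d : ℕ} {V : AND2B.Env d} {a : ℝ}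

/-- the young clock against the clock of the stage -/
theorem young_pow (hP : V.Pre a) (hw1 : (V.w : ℝ) ≤ 1) {n k : ℕ} (hn : n ≤ V.N)
    (hk : k < V.kk (n + 1)) : (V.cl (V.kk (n - 1)) : ℝ) ^ ((V.α + 1) * (V.α + 1)) ≤ V.cl k := by
  have h1 : V.sg (n + 1) ≤ V.cl k := cl_anti' hP hk.le
  have h2 : V.sg n ^ (V.α + 1) ≤ V.sg (n + 1) := hP.sc.low n hn
  have hpos : ∀ j, 0 < V.sg j := sg_pos hP
  have hle : ∀ j, V.sg j ≤ 1 := fun j => (sg_le hP j).trans hw1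
  have h3 : V.sg (n - 1) ^ (V.α + 1) ≤ V.sg n := by
    rcases n with _ | m
    · have h4 : V.sg (0 - 1) = V.sg 0 := rfl
      rw [h4]
      exact pow_le_of_le_one (hpos 0).le (hle 0) (by omega)
    · exact hP.sc.low m (by omega)
  have h4 : (V.cl (V.kk (n - 1)) : ℝ) = V.sg (n - 1) := rfl
  rw [h4, pow_mul]
  exact (pow_le_pow_left₀ (pow_nonneg (hpos _).le _) h3 _).trans (h2.trans h1)

/-- the same for powers: `s_F ^ (9/20) ≤ s ^ (450 ka)` -/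
theorem young_rpow (hP : V.Pre a) (hw1 : (V.w : ℝ) ≤ 1) {n k : ℕ} (hn : n ≤ V.N)
    (hk : k < V.kk (n + 1)) :
    (V.cl (V.kk (n - 1)) : ℝ) ^ (9 / 20 : ℝ) ≤ (V.cl k : ℝ) ^ (450 * ka V) := by
  have h1 := young_pow hP hw1 hn hk
  have hF : (0 : ℝ) < V.cl (V.kk (n - 1)) := cl_pos' hP _
  have hka : 0 < ka V := ka_pos
  have h2 := Real.rpow_le_rpow (by positivity) h1 (by linarith : 0 ≤ 450 * ka V)
  refine le_trans (le_of_eq ?_) h2
  rw [← Real.rpow_natCast, ← Real.rpow_mul hF.le]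
  congr 1
  unfold ka
  push_cast
  field_simp
  norm_num

end

theorem div2 {X D c : ℝ} (hX : 0 ≤ X) (hc : 0 < c) (hD : c ≤ D) : X / (D / 2) ≤ 2 * X / c := by
  rw [div_le_div_iff₀ (by linarith) hc]
  have := mul_le_mul_of_nonneg_left hD hX
  linarith

/-- THE NUMBERS OF THE FORM -/
theorem fnum (d : ℕ) (a c C : ℝ) (hd : 3 ≤ d) (hc : 0 < c) (hC : 1 ≤ C) :
    Ev d a es c C fun V => ∀ n k, n ≤ V.N → V.kk n ≤ k → k < V.kk (n + 1) →
      ∃ J1 J2 : ℕ, FNum (toE V c C) (bud V) n k (V.l n + 4) J1 J2 (parZ V c C n k) := by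
  have hCS : 0 < CS d := MAJ.CS_pos hd
  have h1 : Ev d a es c C fun V => ∀ s : ℝ, 0 < s → s ≤ V.w → FP (CS d) (cpd d) c C V.α s :=
    ev_small (fun _ _ _ α _ s => FP (CS d) (cpd d) c C α s)
      fun _ _ _ α _ _ _ _ hα => fp_small _ _ _ _ α hα
  have h2 := ev_thr d a c C (cpd d) (1 / 2) (by norm_num)
  have h3 : Ev d a es c C fun V => V.e₀ ≤ V.sg (V.N + 1) :=
    ev_e0 (fun V => V.sg (V.N + 1)) (fun V hV => sg_pos hV _) (fun V _ _ _ => rfl)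
  refine (((h1.and h2).and h3).and ev_good).imp fun V hV n k hn hk1 hk2 => ?_
  obtain ⟨⟨⟨hF, hthr⟩, he⟩, hG⟩ := hV
  have hP : V.Pre a := hG.toPre
  have hw := w_pos hP
  have hka : 0 < ka V := ka_pos
  have hkal := ka_le hP
  obtain ⟨w1, _, _, _, _, w6, _, _, _, _⟩ := hF V.w hw le_rfl
  -- the clock of the stage
  obtain ⟨s, hs⟩ : ∃ s : ℝ, s = V.cl k := ⟨_, rfl⟩
  have hs0 : 0 < s := by rw [hs]; exact cl_pos' hP k
  have hsw : s ≤ V.w := by rw [hs]; exact cl_le' hP k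
  have hs1 : s ≤ 1 := hsw.trans w1
  obtain ⟨-, s2, s3, s4, -, -, s7, s8, s9, s10⟩ := hF s hs0 hsw
  have r14 : s ^ (14 : ℝ) = s ^ 14 := by exact_mod_cast Real.rpow_natCast s 14
  have r5 : s ^ (5 : ℝ) = s ^ 5 := by exact_mod_cast Real.rpow_natCast s 5
  rw [r14, Real.rpow_one] at s7
  rw [r5, Real.rpow_one] at s8
  rw [Real.rpow_zero, mul_one] at s9
  -- the young clock
  obtain ⟨y, hy⟩ : ∃ y : ℝ, y = V.cl (V.kk (n - 1)) := ⟨_, rfl⟩
  have hy0 : 0 < y := by rw [hy]; exact cl_pos' hP _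
  have hyw : y ≤ V.w := by rw [hy]; exact cl_le' hP _
  have hy1 : y ≤ 1 := hyw.trans w1
  have hsy : s ≤ y := by
    rw [hs, hy]
    exact cl_anti' hP ((kk_mono hP (Nat.sub_le n 1)).trans hk1)
  obtain ⟨-, -, -, -, y5, -, -, -, -, -⟩ := hF y hy0 hyw
  rw [Real.rpow_zero, mul_one] at y5
  have hyka : y ^ (9 / 20 : ℝ) ≤ s ^ (450 * ka V) := by
    rw [hs, hy]
    exact young_rpow hP w1 hn hk2
  -- floor
  have hes : V.e₀ ≤ s := by
    rw [hs]
    exact he.trans (sg_last hP (hk2.le.trans (kk_mono hP (by omega))))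
  -- levels
  obtain ⟨J1, j1, j1'⟩ := exJ hy0 hy1
  obtain ⟨J2, j2, j2'⟩ := exJ hs0 hs1
  -- weights
  have hwt : ∀ x : ℝ, s ≤ x → 0 < x → (V.e₀ + x * (2 * C)) * (2 * C) ≤ 6 * C ^ 2 * x := by
    intro x hx hx0
    have h3 : 1 * x ≤ C * x := mul_le_mul_of_nonneg_right hC hx0.le
    have h4 : V.e₀ + x * (2 * C) ≤ 3 * C * x := by linarith
    calc (V.e₀ + x * (2 * C)) * (2 * C) ≤ 3 * C * x * (2 * C) :=
          mul_le_mul_of_nonneg_right h4 (by linarith)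
      _ = 6 * C ^ 2 * x := by ring
  -- the bond weight
  obtain ⟨D, hD⟩ : ∃ D : ℝ, D = c * (V.w : ℝ) ^ (8 * es - 1) := ⟨_, rfl⟩
  have hwe : 1 ≤ (V.w : ℝ) ^ (8 * es - 1) :=
    Real.one_le_rpow_of_pos_of_le_one_of_nonpos hw w1 (by unfold es; norm_num)
  have hDc : c ≤ D := by rw [hD]; exact le_mul_of_one_le_right hc.le hwe
  have hD0 : 0 < D := by linarith
  have hDinv : 1 / D = 1 / c * (V.w : ℝ) ^ (1 - 8 * es) := by
    rw [hD]
    have h4 : (V.w : ℝ) ^ (8 * es - 1) * (V.w : ℝ) ^ (1 - 8 * es) = 1 := by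
      rw [← Real.rpow_add hw]
      have : 8 * es - 1 + (1 - 8 * es) = 0 := by ring
      rw [this, Real.rpow_zero]
    have hne : (V.w : ℝ) ^ (8 * es - 1) ≠ 0 := (Real.rpow_pos_of_pos hw _).ne'
    field_simp
    linarith
  have hlev : ∀ (x : ℝ) (J : ℕ), 0 < x → (4 : ℝ) ^ J ≤ x ^ (-(9 / 10) : ℝ) →
      (4 : ℝ) ^ J * x ≤ x ^ (1 / 10 : ℝ) := by
    intro x J hx hJ
    have h4 : x ^ (1 / 10 : ℝ) = x ^ (-(9 / 10) : ℝ) * x := by
      have : (1 / 10 : ℝ) = -(9 / 10) + 1 := by norm_num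
      rw [this, Real.rpow_add hx, Real.rpow_one]
    rw [h4]
    exact mul_le_mul_of_nonneg_right hJ hx.le
  -- the cube
  have hX : s ^ (-(5 : ℝ)) ≤ (2 : ℝ) ^ (V.l n + 4) := by
    have h4 : V.sg (n + 1) ^ (-(5 : ℝ)) ≤ 2 ^ V.l n := hP.sc.llow n hn
    have h5 : s ^ (-(5 : ℝ)) ≤ V.sg (n + 1) ^ (-(5 : ℝ)) :=
      Real.rpow_le_rpow_of_nonpos (sg_pos hP _) (by rw [hs]; exact cl_anti' hP hk2.le)
        (by norm_num)
    refine h5.trans (h4.trans ?_)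
    exact pow_le_pow_right₀ (by norm_num) (by omega)
  have hm : c ^ 2 / 16 * s ≤ (c / 2) ^ 2 * V.cl (k + 1) / 2 := by
    have h4 : (V.cl (k + 1) : ℝ) = V.th * V.cl k := by
      rw [cl_succ]
      push_cast
      rfl
    have h5 : (1 / 2 : ℝ) ≤ V.th := by exact_mod_cast hP.th.1
    rw [h4, ← hs]
    have h6 : 1 / 2 * s ≤ V.th * s := mul_le_mul_of_nonneg_right h5 hs0.le
    have h7 : 0 ≤ c ^ 2 / 8 := by positivity
    have h8 := mul_le_mul_of_nonneg_left h6 h7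
    calc c ^ 2 / 16 * s = c ^ 2 / 8 * (1 / 2 * s) := by ring
      _ ≤ c ^ 2 / 8 * (V.th * s) := h8
      _ = _ := by ring
  obtain ⟨g1, -⟩ := S2_le (J := J1) hd hc hs0 (by linarith : 0 < D / 2) (by linarith) hm hX
  obtain ⟨g3, -⟩ := S2_le (J := 0) hd hc hs0 (by linarith : 0 < D / 2) (by linarith) hm hX
  obtain ⟨-, g2⟩ := S2_le (J := J2) hd hc hs0 (by linarith : 0 < D / 2) (by linarith) hm hX
  obtain ⟨e1, e2, -⟩ := hthr n k
  -- the thresholds of the form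
  have heps : (qq V n k).eps + (bud V).nn n k * cpd d ≤ 1 / 2 * s ^ kg V := by
    have h4 : (qq V n k).eps ≤ 2 * s ^ (ka V / 2) := by
      show (V.cl k : ℝ) ^ (ka V / 2) * (2 - V.sg n ^ ka V) ≤ 2 * s ^ (ka V / 2)
      rw [hs]
      have h5 : 0 ≤ V.sg n ^ ka V := Real.rpow_nonneg (sg_pos hP n).le _
      have h6 : 0 ≤ (V.cl k : ℝ) ^ (ka V / 2) := Real.rpow_nonneg (cl_pos' hP k).le _
      calc (V.cl k : ℝ) ^ (ka V / 2) * (2 - V.sg n ^ ka V) ≤ (V.cl k : ℝ) ^ (ka V / 2) * 2 :=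
            mul_le_mul_of_nonneg_left (by linarith) h6
        _ = _ := by ring
    have h5 : (bud V).nn n k * cpd d = cpd d * s ^ ka V := by
      show (V.cl k : ℝ) ^ ka V * cpd d = cpd d * s ^ ka V
      rw [hs]
      ring
    have h6 : 2 * s ^ (ka V / 2) ≤ 1 / 4 * s ^ (ka V / 4) := s2
    have h7 : cpd d * s ^ ka V ≤ 1 / 4 * s ^ (ka V / 4) := s3
    rw [h5]
    unfold kg
    linarith
  refine ⟨J1, J2, ?_⟩
  refine
    { D₀ := ?_
      nn := Real.rpow_nonneg (cl_pos' hP k).le _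
      eps := ?_
      r2 := ?_
      e2 := ?_
      run := ?_
      yng := ?_
      old := ?_
      s1 := ?_
      s3 := ?_
      s2 := ?_ }
  · show 0 < c * (V.w : ℝ) ^ (8 * es - 1)
    rw [← hD]
    exact hD0
  · show 0 ≤ (V.cl k : ℝ) ^ (ka V / 2) * (2 - V.sg n ^ ka V)
    have h5 : V.sg n ^ ka V ≤ 1 :=
      Real.rpow_le_one (sg_pos hP n).le ((sg_le hP n).trans w1) hka.le
    exact mul_nonneg (Real.rpow_nonneg (cl_pos' hP k).le _) (by linarith)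
  · show (qq V n k).rho + (bud V).nn n k * cpd d ≤ 1 / 2
    rw [mul_comm]
    exact e2
  · show (qq V n k).eps + (bud V).nn n k * cpd d ≤ 1 / 2
    rw [mul_comm]
    exact e1
  · -- running
    show (qq V n k).eps + (bud V).nn n k * cpd d + 2 * CS d * 4 ^ J2 /
      (c * (V.w : ℝ) ^ (8 * es - 1) / 2) * ((V.e₀ + V.cl k * (2 * C)) * (2 * C)) ≤
        (V.cl k : ℝ) ^ kg V
    rw [← hD, ← hs]
    have h4 := hwt s le_rfl hs0
    have h5 : 2 * CS d * 4 ^ J2 / (D / 2) * ((V.e₀ + s * (2 * C)) * (2 * C)) ≤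
        24 * CS d * C ^ 2 / c * s ^ (1 / 10 : ℝ) := by
      have h6 : 2 * CS d * 4 ^ J2 / (D / 2) ≤ 2 * (2 * CS d * 4 ^ J2) / c :=
        div2 (by positivity) hc hDc
      calc 2 * CS d * 4 ^ J2 / (D / 2) * ((V.e₀ + s * (2 * C)) * (2 * C)) ≤
          2 * (2 * CS d * 4 ^ J2) / c * (6 * C ^ 2 * s) := by
            refine mul_le_mul h6 h4 ?_ (by positivity)
            have := hG.e0
            positivity
        _ = 24 * CS d * C ^ 2 / c * (4 ^ J2 * s) := by ring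
        _ ≤ _ := mul_le_mul_of_nonneg_left (hlev s J2 hs0 j2) (by positivity)
    have h6 : 24 * CS d * C ^ 2 / c * s ^ (1 / 10 : ℝ) ≤ 1 / 2 * s ^ kg V := s4
    linarith
  · -- young
    show 4 * CS d * 4 ^ J1 / (c * (V.w : ℝ) ^ (8 * es - 1) / 2) *
      ((V.e₀ + max (V.cl k : ℝ) (V.cl (V.kk (n - 1))) * (2 * C)) * (2 * C)) ≤ 1 / 2
    rw [← hD, ← hs, ← hy, max_eq_right hsy]
    have h4 := hwt y hsy hy0
    have h6 : 4 * CS d * 4 ^ J1 / (D / 2) ≤ 2 * (4 * CS d * 4 ^ J1) / c :=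
      div2 (by positivity) hc hDc
    calc 4 * CS d * 4 ^ J1 / (D / 2) * ((V.e₀ + y * (2 * C)) * (2 * C)) ≤
        2 * (4 * CS d * 4 ^ J1) / c * (6 * C ^ 2 * y) := by
          refine mul_le_mul h6 h4 ?_ (by positivity)
          have := hG.e0
          positivity
      _ = 48 * CS d * C ^ 2 / c * (4 ^ J1 * y) := by ring
      _ ≤ 48 * CS d * C ^ 2 / c * y ^ (1 / 10 : ℝ) :=
        mul_le_mul_of_nonneg_left (hlev y J1 hy0 j1) (by positivity)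
      _ ≤ 1 / 2 := y5
  · -- old
    show 4 * CS d * 4 ^ 0 / (c * (V.w : ℝ) ^ (8 * es - 1) / 2) *
      ((V.e₀ + max (V.cl k : ℝ) (V.cl 0) * (2 * C)) * (2 * C)) ≤ 1 / 2
    have hw0 : (V.cl 0 : ℝ) = V.w := by rw [cl_zero]
    rw [← hD, ← hs, hw0, max_eq_right hsw]
    obtain ⟨-, -, -, -, w5, -, -, -, -, -⟩ := hF V.w hw le_rfl
    rw [Real.rpow_zero, mul_one] at w5
    have h4 := hwt V.w hsw hw
    have h6 : 4 * CS d * 4 ^ 0 / (D / 2) ≤ 2 * (4 * CS d * 4 ^ 0) / c :=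
      div2 (by positivity) hc hDc
    have h7 : (V.w : ℝ) ≤ (V.w : ℝ) ^ (1 / 10 : ℝ) := by
      have := rpow_anti hw w1 (by norm_num : (1 / 10 : ℝ) ≤ 1)
      rwa [Real.rpow_one] at this
    calc 4 * CS d * 4 ^ 0 / (D / 2) * ((V.e₀ + V.w * (2 * C)) * (2 * C)) ≤
        2 * (4 * CS d * 4 ^ 0) / c * (6 * C ^ 2 * V.w) := by
          refine mul_le_mul h6 h4 ?_ (by positivity)
          have := hG.e0
          positivity
      _ = 48 * CS d * C ^ 2 / c * V.w := by ring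
      _ ≤ 48 * CS d * C ^ 2 / c * (V.w : ℝ) ^ (1 / 10 : ℝ) :=
        mul_le_mul_of_nonneg_left h7 (by positivity)
      _ ≤ 1 / 2 := w5
  · -- s1
    show S2 d (V.l n + 4) J1 (c * (V.w : ℝ) ^ (8 * es - 1) / 2) ((c / 2) ^ 2 * V.cl (k + 1) / 2) ≤
      (V.cl k : ℝ) ^ kg V * ((V.w : ℝ) ^ (1 / 50 : ℝ) * (V.cl k : ℝ) ^ (2 * ka V)) ^ 2
    rw [← hD, ← hs]
    refine g1.trans ?_
    have q0 : 0 < s ^ kg V := Real.rpow_pos_of_pos hs0 _
    have hR : s ^ kg V * ((V.w : ℝ) ^ (1 / 50 : ℝ) * s ^ (2 * ka V)) ^ 2 =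
        (V.w : ℝ) ^ (1 / 25 : ℝ) * s ^ (kg V + 4 * ka V) := by
      rw [mul_pow, ← Real.rpow_natCast, ← Real.rpow_natCast, ← Real.rpow_mul hw.le,
        ← Real.rpow_mul hs0.le, Real.rpow_add hs0]
      push_cast
      rw [show (1 / 50 : ℝ) * 2 = 1 / 25 by norm_num, show 2 * ka V * 2 = 4 * ka V by ring]
      ring
    rw [hR]
    have h5 : s ≤ (V.w : ℝ) ^ (1 / 25 : ℝ) * s ^ (kg V + 4 * ka V) := by
      have h6 : s ^ (1 / 25 : ℝ) ≤ (V.w : ℝ) ^ (1 / 25 : ℝ) :=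
        Real.rpow_le_rpow hs0.le hsw (by norm_num)
      have h7 : s ^ (1 : ℝ) ≤ s ^ (1 / 25 + (kg V + 4 * ka V)) :=
        rpow_anti hs0 hs1 (by unfold kg; linarith)
      rw [Real.rpow_one, Real.rpow_add hs0] at h7
      exact h7.trans (mul_le_mul_of_nonneg_right h6 (Real.rpow_nonneg hs0.le _))
    have h6 : 4 * CS d / (D / 2) * (1 / 2 : ℝ) ^ J1 ≤
        1 / 3 * ((V.w : ℝ) ^ (1 / 25 : ℝ) * s ^ (kg V + 4 * ka V)) := by
      have h7 : 4 * CS d / (D / 2) = 8 * CS d * (1 / D) := by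
        field_simp
        norm_num
      rw [h7, hDinv]
      have h8 : (1 / 2 : ℝ) ^ J1 ≤ 2 * s ^ (kg V + 4 * ka V) := by
        refine j1'.trans (mul_le_mul_of_nonneg_left (hyka.trans ?_) (by norm_num))
        exact rpow_anti hs0 hs1 (by unfold kg; linarith)
      have h9 : 48 * CS d / c * (V.w : ℝ) ^ (1 - 8 * es) ≤ (V.w : ℝ) ^ (1 / 25 : ℝ) := by
        rw [one_mul] at w6
        exact w6
      have h10 : 0 ≤ 8 * CS d * (1 / c * (V.w : ℝ) ^ (1 - 8 * es)) := by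
        have := Real.rpow_nonneg hw.le (1 - 8 * es)
        positivity
      calc 8 * CS d * (1 / c * (V.w : ℝ) ^ (1 - 8 * es)) * (1 / 2 : ℝ) ^ J1 ≤
          8 * CS d * (1 / c * (V.w : ℝ) ^ (1 - 8 * es)) * (2 * s ^ (kg V + 4 * ka V)) :=
            mul_le_mul_of_nonneg_left h8 h10
        _ = 1 / 3 * ((48 * CS d / c * (V.w : ℝ) ^ (1 - 8 * es)) * s ^ (kg V + 4 * ka V)) := by ring
        _ ≤ _ := mul_le_mul_of_nonneg_left
            (mul_le_mul_of_nonneg_right h9 (Real.rpow_nonneg hs0.le _)) (by norm_num)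
    linarith
  · -- s3
    show S2 d (V.l n + 4) 0 (c * (V.w : ℝ) ^ (8 * es - 1) / 2) ((c / 2) ^ 2 * V.cl (k + 1) / 2) ≤
      (V.cl k : ℝ) ^ (-1 : ℝ)
    rw [← hD, ← hs]
    refine g3.trans ?_
    have h5 : 4 * CS d / (D / 2) * (1 / 2 : ℝ) ^ 0 ≤ 8 * CS d / c := by
      rw [pow_zero, mul_one]
      refine (div2 (by positivity) hc hDc).trans (le_of_eq ?_)
      ring
    have h6 : s ≤ s ^ (-1 : ℝ) := by
      have := rpow_anti hs0 hs1 (by norm_num : (-1 : ℝ) ≤ 1)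
      rwa [Real.rpow_one] at this
    linarith
  · -- s2
    show S0 d (V.l n + 4) J2 (c * (V.w : ℝ) ^ (8 * es - 1) / 2) ((c / 2) ^ 2 * V.cl (k + 1) / 2) ≤
      (V.cl k : ℝ) ^ (1 / 4 + kg V)
    rw [← hD, ← hs]
    refine g2.trans ?_
    have h5 : 2 * CS d / (D / 2) * (1 / 2 : ℝ) ^ J2 ≤ 8 * CS d / c * s ^ (9 / 20 : ℝ) := by
      have h6 : 2 * CS d / (D / 2) ≤ 2 * (2 * CS d) / c := div2 (by positivity) hc hDc
      calc 2 * CS d / (D / 2) * (1 / 2 : ℝ) ^ J2 ≤ 2 * (2 * CS d) / c * (2 * s ^ (9 / 20 : ℝ)) :=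
            mul_le_mul h6 j2' (by positivity) (by positivity)
        _ = _ := by ring
    have h6 : s ≤ s ^ (1 / 4 + kg V) := by
      have := rpow_anti hs0 hs1 (by unfold kg; linarith : 1 / 4 + kg V ≤ 1)
      rwa [Real.rpow_one] at this
    have h7 : 8 * CS d / c * s ^ (9 / 20 : ℝ) ≤ 1 / 3 * s ^ (1 / 4 + kg V) := s10
    linarith

end Pool.Agent.AHH.H67
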