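import Pool.Agent.Helper61_ANP.Tor
import Pool.Agent.Helper67_MAJ.MAJ

/-!
# AND2B: the number of the dead sites in a box (helper67)

`den`: if a set of level `j` has at most `Dn j` sites in every block of level `j ≤ n`, and the sum of
`3^d Dn j / 2^(l j)` is at most `1/4`, then the union of these sets fills at most a quarter of every box
with the side `2^k ≥ 2^(l n)`.
-/

set_option autoImplicit false

open scoped BigOperators

noncomputable section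

namespace Pool.Agent.AHH.H67

open Pool.Agent.ANP (Geo)
open Pool.Agent.ANP.H61 (rnd geoT neZ pi_card rnd_int)
open Pool.Agent.LTG (Box Tor off)

variable {μ : ℕ}

/-- the blocks of side `2^j` which meet an interval of length `2^k` -/
theorem rnd_box (j k : ℕ) (hjk : j ≤ k) (hk : k ≤ μ) (a : ZMod (2 ^ μ)) :
    ((Finset.univ.filter fun b : ZMod (2 ^ μ) => (b - a).val < 2 ^ k).image (rnd j)).card ≤
      2 * 2 ^ (k - j) := by
  have hsub : ((Finset.univ.filter fun b : ZMod (2 ^ μ) => (b - a).val < 2 ^ k).image (rnd j)) ⊆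
      (Finset.range (2 ^ (k - j) + 1)).image
        (fun q => (((((a.val / 2 ^ j + q) * 2 ^ j : ℕ)) : ℤ) : ZMod (2 ^ μ))) := by
    intro c hc
    obtain ⟨b, hb, rfl⟩ := Finset.mem_image.1 hc
    have hb' := (Finset.mem_filter.1 hb).2
    obtain ⟨m, hm⟩ : ∃ m, m = (b - a).val := ⟨_, rfl⟩
    rw [← hm] at hb'
    have e1 : b = (((a.val + m : ℕ) : ℤ) : ZMod (2 ^ μ)) := by
      rw [hm]
      push_cast
      rw [ZMod.natCast_val, ZMod.cast_id, ZMod.natCast_val, ZMod.cast_id]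
      ring
    rw [e1, rnd_int j (hjk.trans hk)]
    rw [Finset.mem_image]
    refine ⟨(a.val + m) / 2 ^ j - a.val / 2 ^ j, ?_, ?_⟩
    · rw [Finset.mem_range]
      have h1 : (a.val + m) / 2 ^ j ≤ (a.val + 2 ^ (k - j) * 2 ^ j) / 2 ^ j := by
        refine Nat.div_le_div_right ?_
        rw [← pow_add, Nat.sub_add_cancel hjk]
        omega
      rw [Nat.add_mul_div_right _ _ (by positivity)] at h1
      have h0 : 0 < 2 ^ (k - j) := by positivity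
      omega
    · have h2 : a.val / 2 ^ j ≤ (a.val + m) / 2 ^ j := Nat.div_le_div_right (by omega)
      have h3 : a.val / 2 ^ j + ((a.val + m) / 2 ^ j - a.val / 2 ^ j) = (a.val + m) / 2 ^ j := by
        omega
      rw [h3]
      congr 1
  refine (Finset.card_le_card hsub).trans (Finset.card_image_le.trans ?_)
  rw [Finset.card_range]
  have : 1 ≤ 2 ^ (k - j) := Nat.one_le_two_pow
  omega

variable {d : ℕ}

/-- one level -/
theorem den_level (l ρ : ℕ → ℕ) (J N j k : ℕ) (hjk : l j ≤ k) (hk : k ≤ μ) (a : Tor d (2 ^ μ))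
    (S : Finset (Tor d (2 ^ μ))) (D : ℕ)
    (hS : ∀ B, (S ∩ (geoT d μ l ρ J N).blk j B).card ≤ D) :
    (S.filter fun x => Box a (2 ^ k) x).card ≤ (2 * 2 ^ (k - l j)) ^ d * D := by
  set Γ := geoT d μ l ρ J N with hΓ
  set I := (Finset.univ.filter fun x : Tor d (2 ^ μ) => Box a (2 ^ k) x).image (Γ.bl j) with hI
  have h1 : I.card ≤ (2 * 2 ^ (k - l j)) ^ d := by
    refine pi_card I (fun i => (Finset.univ.filter fun b : ZMod (2 ^ μ) =>
      (b - a i).val < 2 ^ k).image (rnd (l j))) _ ?_ (fun i => rnd_box (l j) k hjk hk (a i))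
    intro y hy i
    obtain ⟨x, hx, rfl⟩ := Finset.mem_image.1 hy
    have hx' := (Finset.mem_filter.1 hx).2 i
    exact Finset.mem_image.2 ⟨x i, Finset.mem_filter.2 ⟨Finset.mem_univ _, hx'⟩, rfl⟩
  have h2 : (S.filter fun x => Box a (2 ^ k) x) ⊆ I.biUnion fun B => S ∩ Γ.blk j B := by
    intro x hx
    obtain ⟨hxS, hxB⟩ := Finset.mem_filter.1 hx
    rw [Finset.mem_biUnion]
    refine ⟨Γ.bl j x, Finset.mem_image.2 ⟨x, Finset.mem_filter.2 ⟨Finset.mem_univ _, hxB⟩, rfl⟩, ?_⟩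
    rw [Finset.mem_inter]
    refine ⟨hxS, ?_⟩
    unfold Geo.blk
    exact Finset.mem_filter.2 ⟨Finset.mem_univ _, rfl⟩
  calc (S.filter fun x => Box a (2 ^ k) x).card ≤ (I.biUnion fun B => S ∩ Γ.blk j B).card :=
        Finset.card_le_card h2
    _ ≤ ∑ B ∈ I, (S ∩ Γ.blk j B).card := Finset.card_biUnion_le
    _ ≤ ∑ _B ∈ I, D := Finset.sum_le_sum fun B _ => hS B
    _ = I.card * D := by rw [Finset.sum_const, smul_eq_mul]
    _ ≤ _ := Nat.mul_le_mul_right _ h1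

/-- DEN -/
theorem den (hd : 1 ≤ d) (l ρ : ℕ → ℕ) (J N n k : ℕ) (hl : ∀ j ≤ n, l j ≤ k) (hk : k ≤ μ)
    (a : Tor d (2 ^ μ)) (Dn : ℕ → ℕ) (dd : ℕ → Finset (Tor d (2 ^ μ)))
    (hdd : ∀ j B, (dd j ∩ (geoT d μ l ρ J N).blk j B).card ≤ Dn j)
    (hs : ∑ i ∈ Finset.range (n + 1), (3 ^ d * Dn i : ℝ) / 2 ^ l i ≤ 1 / 4)
    (S : Finset (Tor d (2 ^ μ))) (hS : ∀ x ∈ S, Box a (2 ^ k) x ∧ ∃ j ≤ n, x ∈ dd j) :
    (S.card : ℝ) ≤ ((2 : ℝ) ^ k) ^ d / 4 := by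
  have h1 : S ⊆ (Finset.range (n + 1)).biUnion fun j => (dd j).filter fun x => Box a (2 ^ k) x := by
    intro x hx
    obtain ⟨hB, j, hj, hxj⟩ := hS x hx
    rw [Finset.mem_biUnion]
    exact ⟨j, Finset.mem_range.2 (by omega), Finset.mem_filter.2 ⟨hxj, hB⟩⟩
  have h2 : S.card ≤ ∑ j ∈ Finset.range (n + 1), (2 * 2 ^ (k - l j)) ^ d * Dn j :=
    (Finset.card_le_card h1).trans (Finset.card_biUnion_le.trans
      (Finset.sum_le_sum fun j hj => den_level l ρ J N j k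
        (hl j (by rw [Finset.mem_range] at hj; omega)) hk a (dd j) (Dn j) (hdd j)))
  have h3 : ∀ j ∈ Finset.range (n + 1), (((2 * 2 ^ (k - l j)) ^ d * Dn j : ℕ) : ℝ) ≤
      ((2 : ℝ) ^ k) ^ d * ((3 ^ d * Dn j : ℝ) / 2 ^ l j) := by
    intro j hj
    have hj' := hl j (by rw [Finset.mem_range] at hj; omega)
    push_cast
    have e1 : (2 : ℝ) ^ k = 2 ^ (k - l j) * 2 ^ l j := by
      rw [← pow_add, Nat.sub_add_cancel hj']
    have e2 : (2 : ℝ) ^ l j ≤ ((2 : ℝ) ^ l j) ^ d :=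
      le_self_pow₀ (one_le_pow₀ (by norm_num)) (by omega)
    have e3 : (2 : ℝ) ^ d ≤ 3 ^ d := pow_le_pow_left₀ (by norm_num) (by norm_num) d
    have hp : (0 : ℝ) < 2 ^ l j := by positivity
    rw [e1, mul_pow, mul_pow]
    have e4 : ((2 : ℝ) ^ (k - l j)) ^ d * ((2 : ℝ) ^ l j) ^ d * (3 ^ d * Dn j / 2 ^ l j) =
        (3 ^ d * ((2 : ℝ) ^ (k - l j)) ^ d * Dn j) * (((2 : ℝ) ^ l j) ^ d / 2 ^ l j) := by
      ring
    rw [e4]
    have e5 : 1 ≤ ((2 : ℝ) ^ l j) ^ d / 2 ^ l j := by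
      rw [one_le_div hp]
      exact e2
    have e6 : (0 : ℝ) ≤ ((2 : ℝ) ^ (k - l j)) ^ d * Dn j := by positivity
    have e7 : (2 : ℝ) ^ d * ((2 : ℝ) ^ (k - l j)) ^ d * Dn j ≤
        3 ^ d * ((2 : ℝ) ^ (k - l j)) ^ d * Dn j := by
      have := mul_le_mul_of_nonneg_right e3 e6
      linarith [this]
    have e8 : (0 : ℝ) ≤ 3 ^ d * ((2 : ℝ) ^ (k - l j)) ^ d * Dn j := by positivity
    exact e7.trans (le_mul_of_one_le_right e8 e5)
  calc (S.card : ℝ) ≤ ((∑ j ∈ Finset.range (n + 1), (2 * 2 ^ (k - l j)) ^ d * Dn j : ℕ) : ℝ) := by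
        exact_mod_cast h2
    _ = ∑ j ∈ Finset.range (n + 1), (((2 * 2 ^ (k - l j)) ^ d * Dn j : ℕ) : ℝ) := by
        push_cast
        rfl
    _ ≤ ∑ j ∈ Finset.range (n + 1), ((2 : ℝ) ^ k) ^ d * ((3 ^ d * Dn j : ℝ) / 2 ^ l j) :=
        Finset.sum_le_sum h3
    _ = ((2 : ℝ) ^ k) ^ d * ∑ j ∈ Finset.range (n + 1), (3 ^ d * Dn j : ℝ) / 2 ^ l j := by
        rw [Finset.mul_sum]
    _ ≤ ((2 : ℝ) ^ k) ^ d * (1 / 4) := mul_le_mul_of_nonneg_left hs (by positivity)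
    _ = _ := by ring

/-- the number of the sites of a box -/
theorem card_Box (M : ℕ) [NeZero M] (a : Tor d M) {L : ℕ} (hL : L ≤ M) :
    ((Finset.univ.filter fun x => Box a L x).card : ℝ) = (L : ℝ) ^ d := by
  have h1 := MAJ.sum_cu a hL (fun _ => (1 : ℝ))
  rw [← Finset.sum_filter, Finset.sum_const, Finset.sum_const, NAS.card_cu] at h1
  simp only [nsmul_eq_mul, mul_one] at h1
  rw [h1]
  push_cast
  rfl

/-- the alive sites of the big box off a small box -/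
theorem den_Z (hd : 3 ≤ d) (l ρ : ℕ → ℕ) (J N n k : ℕ) (hl : ∀ j ≤ n, l j ≤ k) (hk : k ≤ μ)
    (a : Tor d (2 ^ μ)) (Dn : ℕ → ℕ) (dd : ℕ → Finset (Tor d (2 ^ μ)))
    (hdd : ∀ j B, (dd j ∩ (geoT d μ l ρ J N).blk j B).card ≤ Dn j)
    (hs : ∑ i ∈ Finset.range (n + 1), (3 ^ d * Dn i : ℝ) / 2 ^ l i ≤ 1 / 4)
    (A Q : Finset (Tor d (2 ^ μ))) (hA : ∀ x, x ∉ A → ∃ j ≤ n, x ∈ dd j) (kQ : ℕ) (hkQ : kQ < k)
    (hQ : ∀ x ∈ Q, Box a (2 ^ kQ) x) :
    ((2 : ℝ) ^ k) ^ d ≤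
      4 * ((Finset.univ.filter fun x => Box a (2 ^ k) x ∧ x ∈ A ∧ x ∉ Q).card : ℝ) := by
  set Z := Finset.univ.filter fun x => Box a (2 ^ k) x ∧ x ∈ A ∧ x ∉ Q with hZ
  set W := Finset.univ.filter fun x => Box a (2 ^ k) x with hW
  set Dd := Finset.univ.filter fun x => Box a (2 ^ k) x ∧ x ∉ A with hDd
  have hk2 : 2 ^ k ≤ 2 ^ μ := Nat.pow_le_pow_right (by norm_num) hk
  have hWc : (W.card : ℝ) = ((2 : ℝ) ^ k) ^ d := by
    rw [hW, card_Box (2 ^ μ) a hk2]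
    push_cast
    rfl
  have hDc : (Dd.card : ℝ) ≤ ((2 : ℝ) ^ k) ^ d / 4 := by
    refine den (by omega) l ρ J N n k hl hk a Dn dd hdd hs Dd fun x hx => ?_
    obtain ⟨-, h1, h2⟩ := Finset.mem_filter.1 hx
    exact ⟨h1, hA x h2⟩
  have hQc : (Q.card : ℝ) ≤ ((2 : ℝ) ^ k) ^ d / 8 := by
    have h1 : Q ⊆ Finset.univ.filter fun x => Box a (2 ^ kQ) x := fun x hx =>
      Finset.mem_filter.2 ⟨Finset.mem_univ _, hQ x hx⟩
    have hkQ2 : 2 ^ kQ ≤ 2 ^ μ := Nat.pow_le_pow_right (by norm_num) (by omega)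
    have h2 : (Q.card : ℝ) ≤ ((2 ^ kQ : ℕ) : ℝ) ^ d := by
      rw [← card_Box (2 ^ μ) a hkQ2]
      exact_mod_cast Finset.card_le_card h1
    refine h2.trans ?_
    push_cast
    obtain ⟨e, rfl⟩ : ∃ e, k = kQ + 1 + e := ⟨k - kQ - 1, by omega⟩
    have e1 : ((2 : ℝ) ^ (kQ + 1 + e)) ^ d = (2 ^ kQ) ^ d * 2 ^ d * (2 ^ e) ^ d := by
      rw [pow_add, pow_add, mul_pow, mul_pow, pow_one]
    rw [e1]
    have e2 : (8 : ℝ) ≤ 2 ^ d := by
      calc (8 : ℝ) = 2 ^ 3 := by norm_num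
        _ ≤ 2 ^ d := pow_le_pow_right₀ (by norm_num) hd
    have e3 : (1 : ℝ) ≤ (2 ^ e) ^ d := one_le_pow₀ (one_le_pow₀ (by norm_num))
    have e4 : (0 : ℝ) ≤ (2 ^ kQ) ^ d := by positivity
    have e5 : (2 ^ kQ) ^ d * 8 * 1 ≤ ((2 : ℝ) ^ kQ) ^ d * 2 ^ d * (2 ^ e) ^ d :=
      mul_le_mul (mul_le_mul_of_nonneg_left e2 e4) e3 (by norm_num) (by positivity)
    linarith
  have hcov : W ⊆ Z ∪ (Dd ∪ Q) := by
    intro x hx
    have h1 := (Finset.mem_filter.1 hx).2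
    by_cases hxA : x ∈ A
    · by_cases hxQ : x ∈ Q
      · exact Finset.mem_union_right _ (Finset.mem_union_right _ hxQ)
      · exact Finset.mem_union_left _ (Finset.mem_filter.2 ⟨Finset.mem_univ _, h1, hxA, hxQ⟩)
    · exact Finset.mem_union_right _ (Finset.mem_union_left _
        (Finset.mem_filter.2 ⟨Finset.mem_univ _, h1, hxA⟩))
  have hc : (W.card : ℝ) ≤ Z.card + (Dd.card + Q.card) := by
    have h1 := (Finset.card_le_card hcov).trans (Finset.card_union_le _ _)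
    have h2 := Finset.card_union_le Dd Q
    exact_mod_cast h1.trans (by omega)
  have hp : 0 < ((2 : ℝ) ^ k) ^ d := by positivity
  linarith

end Pool.Agent.AHH.H67
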