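import Pool.Agent.Helper61_ANP.Tor
import Pool.Agent.LTG.Defs

/-!
# AND2B: boxes and distances on the dyadic torus (helper67)

`aB l B`: the corner of the box with the side `8 2^l` around the block `B`.
-/

set_option autoImplicit false

namespace Pool.Agent.AHH.H67

open Pool.Agent.ANP.H61 (sd cd neZ sd_le cd_le exists_int le_sd)
open Pool.Agent.LTG (Box Tor off Core)

variable {d μ : ℕ}

/-- the corner of the box around `B` -/
def aB (l : ℕ) (B : Tor d (2 ^ μ)) : Tor d (2 ^ μ) := fun i => B i - ((4 * 2 ^ l : ℕ) : ZMod (2 ^ μ))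

/-- near sites have coordinates in the middle of the box -/
theorem off_of_D (l t : ℕ) (B x : Tor d (2 ^ μ)) (ht : t ≤ 4 * 2 ^ l) (hμ : 4 * 2 ^ l + t < 2 ^ μ)
    (h : sd x B ≤ t) (i : Fin d) :
    4 * 2 ^ l ≤ off (aB l B) x i + t ∧ off (aB l B) x i ≤ 4 * 2 ^ l + t := by
  obtain ⟨k, hk1, hk2⟩ := exists_int (x i) (B i)
  have hk3 : k.natAbs ≤ t := by rw [hk2]; exact (sd_le x B t).1 h i
  obtain ⟨m, hm⟩ : ∃ m : ℕ, (m : ℤ) = k + (4 * 2 ^ l : ℕ) := ⟨(k + (4 * 2 ^ l : ℕ)).toNat, by omega⟩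
  have h1 : x i - aB l B i = ((m : ℕ) : ZMod (2 ^ μ)) := by
    have h2 : x i - aB l B i = (x i - B i) + ((4 * 2 ^ l : ℕ) : ZMod (2 ^ μ)) := by
      unfold aB
      ring
    rw [h2, hk1]
    have h3 : ((m : ℕ) : ZMod (2 ^ μ)) = (((m : ℕ) : ℤ) : ZMod (2 ^ μ)) := by push_cast; rfl
    rw [h3, hm]
    push_cast
    ring
  have hm2 : m < 2 ^ μ := by omega
  have h4 : off (aB l B) x i = m := by
    unfold off
    rw [h1, ZMod.val_natCast, Nat.mod_eq_of_lt hm2]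
  rw [h4]
  omega

/-- and conversely -/
theorem D_of_off (l t : ℕ) (B x : Tor d (2 ^ μ))
    (h : ∀ i, 4 * 2 ^ l ≤ off (aB l B) x i + t ∧ off (aB l B) x i ≤ 4 * 2 ^ l + t) :
    sd x B ≤ t := by
  rw [sd_le]
  intro i
  obtain ⟨h1, h2⟩ := h i
  refine (cd_le (x i) (B i) ((off (aB l B) x i : ℤ) - (4 * 2 ^ l : ℕ)) ?_).trans (by omega)
  have h3 : ((off (aB l B) x i : ℕ) : ZMod (2 ^ μ)) = x i - aB l B i := by
    unfold off
    rw [ZMod.natCast_val, ZMod.cast_id]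
  push_cast
  rw [h3]
  unfold aB
  push_cast
  ring

/-- the targets lie in the box -/
theorem box_of_D (l : ℕ) (B x : Tor d (2 ^ μ)) (hμ : l + 4 ≤ μ) (h : sd x B ≤ 2 * 2 ^ l) :
    Box (aB l B) (2 ^ (l + 3)) x := by
  intro i
  have hp : 2 ^ (l + 4) ≤ 2 ^ μ := Nat.pow_le_pow_right (by norm_num) hμ
  have e4 : 2 ^ (l + 4) = 16 * 2 ^ l := by rw [pow_add]; ring
  have e3 : 2 ^ (l + 3) = 8 * 2 ^ l := by rw [pow_add]; ring
  have h0 : 0 < 2 ^ l := by positivity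
  have h1 := (off_of_D l (2 * 2 ^ l) B x (by omega) (by omega) h i).2
  rw [e3]
  omega

/-- sites outside of the core are far from the block -/
theorem D_of_not_core (l : ℕ) (B x : Tor d (2 ^ μ)) (hμ : l + 4 ≤ μ)
    (h : ¬ Core (aB l B) (2 ^ (l + 3)) (2 ^ l) x) : 3 * 2 ^ l ≤ sd x B := by
  by_contra hc
  apply h
  intro i
  have hp : 2 ^ (l + 4) ≤ 2 ^ μ := Nat.pow_le_pow_right (by norm_num) hμ
  have e4 : 2 ^ (l + 4) = 16 * 2 ^ l := by rw [pow_add]; ring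
  have e3 : 2 ^ (l + 3) = 8 * 2 ^ l := by rw [pow_add]; ring
  have h0 : 0 < 2 ^ l := by positivity
  obtain ⟨h1, h2⟩ := off_of_D l (3 * 2 ^ l - 1) B x (by omega) (by omega) (by omega) i
  rw [e3]
  omega

theorem box_mono (a : Tor d (2 ^ μ)) {L L' : ℕ} (h : L ≤ L') {x : Tor d (2 ^ μ)}
    (hx : Box a L x) : Box a L' x := fun i => lt_of_lt_of_le (hx i) h

end Pool.Agent.AHH.H67
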