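import Pool.Agent.Helper67_AHH.Ok
import Pool.Agent.Helper67_AHH.Den
import Pool.Agent.Helper67_AHH.GeoB
import Pool.Agent.Helper89_FAR.Loc
import Pool.Agent.Helper89_FAR.GeoT

/-!
# AND2B: the block lemma is applicable, on the dyadic torus (helper67)
-/

set_option autoImplicit false

open scoped BigOperators NNReal ENNReal Matrix

noncomputable section

namespace Pool.Agent.AHH.H67

open Pool.Agent.BED (Tor adj)
open Pool.Agent.LE.QF (BB KK qf)
open Pool.Agent.AND2B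
open Pool.Agent.ANP (Cfg Geo Fc)
open Pool.Agent.AFJ (ind LaR EE)
open Pool.Agent.AFL (Fl)
open Pool.Agent.LTG (Fm Bd sT tT qd Box)
open Pool.Agent.ANR.H89 (GeoF cI OldOk)

/-- the data of the protocol -/
structure GOk {d M : ℕ} (V : Env d M) : Prop where
  th : V.th ≤ 1
  cl : ∀ k, V.cl (k + 1) = V.th * V.cl k
  clp : ∀ k, 0 < V.cl k
  cl1 : V.cl 0 ≤ 1
  kk0 : V.kk 0 = 0
  km : ∀ n, V.kk n < V.kk (n + 1)

theorem GOk.mono {d M : ℕ} {V : Env d M} (h : GOk V) {m n : ℕ} (hmn : m ≤ n) :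
    V.kk m ≤ V.kk n := by
  induction n with
  | zero =>
    have : m = 0 := by omega
    rw [this]
  | succ n ih =>
    rcases Nat.lt_or_ge n m with h1 | h1
    · have : m = n + 1 := by omega
      rw [this]
    · exact (ih h1).trans (h.km n).le

/-- the numbers of the locality -/
structure LNum {d M : ℕ} (V : Env d M) (n k : ℕ) (p : Par) : Prop where
  sum : ∑ i ∈ Finset.range (n + 1), (3 ^ d * V.Dn i : ℝ) / V.Γ.L i ≤ 1 / 4
  cL : 4 * (cI d V.Dn (Finset.range (n + 1)) + 1) ≤ V.Γ.L n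
  cρ : ∀ m, n = m + 1 → cI d V.Dn (Finset.range (m + 1)) + 1 / 2 ≤ (V.Γ.ρ m : ℝ) / 2
  L : 4 / (V.c₀ * V.cl (k + 1)) ^ 4 *
    Real.exp (-(V.c₀ * V.cl (k + 1) / (32 * d) * (2 * V.Γ.L n))) ≤ p.L
  δ : 4 / (V.c₀ * V.cl (k + 1)) *
    Real.exp (-(V.c₀ * V.cl (k + 1) / (32 * d) * (2 * V.Γ.L n))) ≤ p.δ
  old : 0 ≤ p.old ∧ ∀ m, n = m + 1 → 2 / (V.c₀ * V.cl (k + 1)) *
    Real.exp (-(V.c₀ * V.cl (V.kk (m + 1)) / (4 * d) * V.Γ.ρ m)) ≤ p.old

variable {d M : ℕ} [NeZero M]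

/-- the invariant for the old nodes in the form of helper89 -/
theorem old_ok {V : Env d M} {m : ℕ} {T : Cfg (Tor d M)} (h1 : Old V (m + 1) T)
    (h2 : Ded V (m + 1) T) : OldOk V m T := by
  obtain ⟨dd, h3, h4⟩ := h2
  refine ⟨dd, h4, fun x hx y hy => ?_⟩
  rcases h1 m rfl x hx y hy with h5 | h5
  · obtain ⟨j, hj, hy'⟩ := h3 y h5
    exact Or.inl ⟨h5, j, by omega, hy'⟩
  · exact Or.inr h5

/-- LOCALITY -/
theorem lcl {V : Env d M} {bd : Bud} {n k : ℕ} {p : Par} {T₀ T : Cfg (Tor d M)}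
    {run₀ run P : Finset (Tor d M)} {B : Tor d M} (hΓ : GeoF V.Γ) (hG : GOk V)
    (hMd : Md V bd n k T₀ run₀ P T run) (hE : EOk V k)
    (hF : Fc V.Γ V.kk V.cl V.Dn n k P T run) (hL : LNum V n k p) (hB : V.Γ.bl n B = B)
    (hne : (run ∩ V.Γ.blk n B).Nonempty) :
    Lcl V T (run ∩ V.Γ.blk n B) (Q1s V n T B) (Yo V n T) k p := by
  intro T' hmb hoff hon
  have hg : ∀ x ∈ Al T, V.c₀ ≤ gg T x := fun x hx => (md_gau hMd hE x hx).1
  have hc := hE.c₀
  have hk0 : 0 < V.c₀ * (V.cl (k + 1) : ℝ) := mul_pos hc.1 hE.cl'.1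
  constructor
  · intro x hx hxQ
    have hxB : 2 * V.Γ.L n < V.Γ.D x B := by
      by_contra hc'
      exact hxQ (Finset.mem_filter.2 ⟨hx, by omega⟩)
    obtain ⟨h1, h2⟩ := ANR.H89.loc_hf hΓ hG.th hG.cl hG.clp hG.cl1 hE.e₀ hc.1 hc.2.1 hg hF hL.sum
      hL.cL hB hne hmb hoff hon hx hxB
    have h3 : Real.exp (-(V.c₀ * V.cl (k + 1) / (32 * d) * V.Γ.D x B)) ≤
        Real.exp (-(V.c₀ * V.cl (k + 1) / (32 * d) * (2 * V.Γ.L n))) := by
      apply Real.exp_le_exp.2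
      have h4 : (2 * V.Γ.L n : ℝ) ≤ V.Γ.D x B := by exact_mod_cast hxB.le
      have h5 := mul_le_mul_of_nonneg_left h4
        (by positivity : 0 ≤ V.c₀ * (V.cl (k + 1) : ℝ) / (32 * d))
      linarith
    exact ⟨(h1.trans (mul_le_mul_of_nonneg_left h3 (by positivity))).trans hL.L,
      (h2.trans (mul_le_mul_of_nonneg_left h3 (by positivity))).trans hL.δ⟩
  · intro c hc'
    rcases n with _ | m
    · -- no old nodes
      have h1 : Al T \ Yo V 0 T = ∅ := by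
        rw [Finset.sdiff_eq_empty_iff_subset]
        intro x hx
        refine Finset.mem_filter.2 ⟨hx, ?_⟩
        have h2 : V.kk (0 - 1) = 0 := hG.kk0
        rw [h2]
        by_cases hr : x ∈ run
        · have h3 : T.s x ≤ V.cl k := by exact_mod_cast ((fc_run hF hE).1 x hr).2
          exact h3.trans (ANR.H89.cl_anti hG.th hG.cl (Nat.zero_le k))
        · exact ((fc_run hF hE).2.2.2 x hx).2 hr
      rw [h1, Finset.sum_empty]
      exact hL.old.1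
    · have h1 : Al T \ Yo V (m + 1) T = (Al T).filter (fun x => V.cl (V.kk m) < T.s x) := by
        ext x
        unfold Yo
        have h2 : m + 1 - 1 = m := by omega
        rw [h2]
        simp only [Finset.mem_sdiff, Finset.mem_filter, not_and, not_le]
        exact ⟨fun h => ⟨h.1, h.2 h.1⟩, fun h => ⟨h.1, fun _ => h.2⟩⟩
      rw [h1]
      have hkm : V.kk m ≤ k := (hG.mono (Nat.le_succ m)).trans hMd.ctx.2.1
      exact (ANR.H89.hold_hf hΓ hG.th hG.cl hG.clp hG.cl1 hE.e₀ hc.1 hc.2.1 hg hF hkm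
        (old_ok hMd.old hMd.ded)
        (by
          refine le_trans ?_ hL.sum
          refine Finset.sum_le_sum_of_subset_of_nonneg (Finset.range_mono (by omega)) ?_
          intro i _ _
          positivity) (hL.cρ m rfl) hmb hoff hon hc').trans (hL.old.2 m rfl)

end Pool.Agent.AHH.H67

namespace Pool.Agent.AHH.H67

open Pool.Agent.LE.QF (BB KK qf)
open Pool.Agent.AND2B
open Pool.Agent.ANP (Cfg Geo Fc)
open Pool.Agent.LTG (Box Tor)
open Pool.Agent.ANR.H89 (GeoF cI OldOk)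

/-- FLO IS APPLICABLE, on the dyadic torus -/
theorem flOf_okT {d μ J N : ℕ} {l r : ℕ → ℕ} (hd : 3 ≤ d) {V : Env d (2 ^ μ)}
    (hΓ : V.Γ = Gt d μ J N l r) (hl : Monotone l) (hG : GOk V) {bd : Bud} {n k J1 J2 : ℕ}
    (hlμ : l n + 4 ≤ μ) {p : Par} {T₀ T : Cfg (Tor d (2 ^ μ))} {run₀ run P : Finset (Tor d (2 ^ μ))}
    {B : Tor d (2 ^ μ)} (hMd : Md V bd n k T₀ run₀ P T run) (hE : EOk V k)
    (hF : Fc V.Γ V.kk V.cl V.Dn n k P T run) (hN : FNum V bd n k (l n + 4) J1 J2 p) {rG : ℝ}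
    (hBn : BNum V bd n k rG p) (hL : LNum V n k p) (hG₀ : ∀ x, ‖V.G₀ x x‖ ≤ rG)
    (hPsi : ∀ x, Psi V.Γ n P x ≤ V.Cp) (hVi : ¬ Viol V.E V.L T) (hB : V.Γ.bl n B = B)
    (hPB : Disjoint P (V.Γ.blk n B)) (hne : (run ∩ V.Γ.blk n B).Nonempty) :
    (flOf V T (run ∩ V.Γ.blk n B) (Qs T (aB (l n) B) (2 ^ (l n + 3))) (Q1s V n T B) run (run \ P)
      (Yo V n T) k p).Ok V.c₀ V.C₀ := by
  have hΓF : GeoF V.Γ := by rw [hΓ]; exact ANR.H89.geoF_T d μ J N l r hl
  have hD : ∀ x y, V.Γ.D x y = ANP.H61.sd x y := fun x y => by rw [hΓ]; rfl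
  have hLn : V.Γ.L n = 2 ^ l n := by rw [hΓ]; rfl
  have hpow : 2 ^ (l n + 4) ≤ 2 ^ μ := Nat.pow_le_pow_right (by norm_num) hlμ
  refine flOf_ok hd hMd hE hF hN hBn hG₀ hPsi hVi (aB (l n) B) hpow _ _ _
    Finset.inter_subset_left ?_ ?_ ?_ ?_ ?_ (lcl hΓF hG hMd hE hF hL hB hne)
  · rw [Finset.disjoint_left]
    intro x hx hxP
    exact Finset.disjoint_left.1 hPB hxP (Finset.mem_inter.1 hx).2
  · intro x hx
    obtain ⟨hr, hb⟩ := Finset.mem_inter.1 hx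
    refine Finset.mem_filter.2 ⟨fc_alv hF hE hr, ?_⟩
    unfold Geo.blk at hb
    have h1 := (Finset.mem_filter.1 hb).2
    have h2 := hΓF.ok.diam n x B (by rw [h1, hB])
    omega
  · intro x hx
    obtain ⟨hA, hDx⟩ := Finset.mem_filter.1 hx
    refine Finset.mem_filter.2 ⟨hA, ?_⟩
    rw [hD, hLn] at hDx
    exact box_of_D (l n) B x hlμ hDx
  · intro x hx
    obtain ⟨hA, hBx⟩ := Finset.mem_filter.1 hx
    exact ⟨hA, box_mono _ (Nat.pow_le_pow_right (by norm_num) (by omega)) hBx⟩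
  · obtain ⟨dd, h1, h2⟩ := hF.dens
    refine den_Z hd l (fun n => 2 ^ r n) J N n (l n + 4) (fun j hj => (hl hj).trans (by omega)) hlμ
      (aB (l n) B) V.Dn dd (fun j B' => ?_) ?_ (Al T) _ (fun x hx => ?_) (l n + 3) (by omega)
      (fun x hx => (Finset.mem_filter.1 hx).2)
    · have h3 := h2 j B'
      rw [hΓ] at h3
      exact h3
    · have h3 := hL.sum
      refine le_trans (le_of_eq ?_) h3
      refine Finset.sum_congr rfl fun i _ => ?_
      have h4 : V.Γ.L i = 2 ^ l i := by rw [hΓ]; rfl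
      rw [h4]
      push_cast
      rfl
    · rw [mem_Al, not_lt] at hx
      exact h1 x (le_antisymm hx zero_le)

end Pool.Agent.AHH.H67
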