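import Pool.Agent.AHH.Defs
import Pool.Agent.Helper58_AHH.Meas

/-!
# AND2B: the data of the block lemma for one block of a good configuration (helper67)

`flOf V T b Q Q1 run U Yg k p`: the block lemma `AFL.Fl` for the update of the running sites `b` of the
configuration `T`, `p` the numbers. `cfg T b t ζ` is the configuration at the time `t` of the run.
-/

set_option autoImplicit false

open MeasureTheory ProbabilityTheory

open scoped BigOperators NNReal ENNReal Matrix

noncomputable section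

namespace Pool.Agent.AHH.H67

open Pool.Agent.BED (Tor adj)
open Pool.Agent.LE.QF (BB KK)
open Pool.Agent.AND2B
open Pool.Agent.ANP (Cfg Geo Fc)
open Pool.Agent.AFJ (ind LaR EE)
open Pool.Agent.AFL (Fl)

/-- the numbers of the block lemma -/
structure Par where
  /-- lower bound of the absorption -/
  κv : ℝ
  /-- upper bound of `Im G_xx` -/
  r : ℝ
  /-- mismatch, in units of `δ` -/
  N : ℝ
  /-- entries -/
  δ : ℝ
  /-- upper bound of `Λ` -/
  L : ℝ
  /-- relative change of `Λ` -/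
  ω : ℝ
  /-- white error -/
  ε : ℝ
  /-- smooth part, young nodes -/
  s1 : ℝ
  /-- smooth part, old nodes -/
  s3 : ℝ
  /-- flux to the old nodes -/
  old : ℝ
  /-- smooth part, running sites -/
  s2 : ℝ
  /-- error of the form -/
  ε₁ : ℝ
  /-- change of the pair of block Y -/
  δY : ℝ
  /-- auxiliary -/
  z : ℝ
  /-- auxiliary -/
  L0 : ℝ
  /-- exponent -/
  n : ℕ
  /-- exponent -/
  nL : ℕ

variable {d M : ℕ} [NeZero M]

/-- the data of the block lemma -/
def flOf (V : Env d M) (T : Cfg (Tor d M)) (b Q Q1 run U Yg : Finset (Tor d M)) (k : ℕ)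
    (p : Par) : Fl (Tor d M) where
  toBlk := H58.blkOf V.E V.e₀ T b
  T := (1 - (V.th : ℝ)) * V.cl k
  A := Al T
  Q := Q
  Q1 := Q1
  Rg := run
  U := U
  Yg := Yg
  P0 := pv T run (V.cl (k + 1))
  w := pw T run (V.cl (k + 1))
  κv := p.κv
  r := p.r
  N := p.N
  δ := p.δ
  L := p.L
  ω := p.ω
  ε := p.ε
  s1 := p.s1
  s3 := p.s3
  old := p.old
  s2 := p.s2
  ε₁ := p.ε₁
  δY := p.δY
  z := p.z
  L0 := p.L0
  n := p.n
  nL := p.nL

/-- the configuration at the time `t` of the run of `b` -/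
def cfg (T : Cfg (Tor d M)) (b : Finset (Tor d M)) (t : ℝ) (ζ : Tor d M → ℝ) : Cfg (Tor d M) :=
  ⟨fun x => if x ∈ b then T.V x + ζ x else T.V x,
    fun x => if x ∈ b then T.s x - t.toNNReal else T.s x, T.mb⟩

omit [NeZero M] in
theorem cfg_s {T : Cfg (Tor d M)} {b : Finset (Tor d M)} {t : ℝ} {ζ : Tor d M → ℝ} (h0 : 0 ≤ t)
    (hs : ∀ x ∈ b, t ≤ T.s x) :
    (∀ x ∈ b, ((cfg T b t ζ).s x : ℝ) = T.s x - t ∧ (cfg T b t ζ).V x = T.V x + ζ x) ∧
      ∀ x, x ∉ b → (cfg T b t ζ).s x = T.s x ∧ (cfg T b t ζ).V x = T.V x := by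
  constructor
  · intro x hx
    unfold cfg
    simp only
    rw [if_pos hx, if_pos hx]
    refine ⟨?_, rfl⟩
    rw [NNReal.coe_sub (by
      rw [← NNReal.coe_le_coe, Real.coe_toNNReal _ h0]
      exact hs x hx), Real.coe_toNNReal _ h0]
  · intro x hx
    unfold cfg
    simp only
    rw [if_neg hx, if_neg hx]
    exact ⟨rfl, rfl⟩

/-- the potential of the block, extended by zero -/
def ext (b : Finset (Tor d M)) (v : b → ℝ) (x : Tor d M) : ℝ := if h : x ∈ b then v ⟨x, h⟩ else 0

omit [NeZero M] in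
theorem ext_restr (b : Finset (Tor d M)) (v : b → ℝ) :
    (fun c : b => ext b v (c : Tor d M)) = v := by
  funext c
  unfold ext
  rw [dif_pos c.2]

/-- every point of the run is a network of a configuration -/
theorem at_cfg (V : Env d M) (T : Cfg (Tor d M)) (b : Finset (Tor d M)) (t : ℝ) (v : b → ℝ)
    (h0 : 0 ≤ t) (hs : ∀ x ∈ b, t ≤ T.s x) :
    (H58.blkOf V.E V.e₀ T b).G (t, v) = net V.E V.e₀ (cfg T b t (ext b v)) ∧
      ∀ x, (H58.blkOf V.E V.e₀ T b).kp t x = kap V.e₀ (cfg T b t (ext b v)) x := by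
  obtain ⟨h1, h2⟩ := cfg_s (ζ := ext b v) h0 hs
  constructor
  · have h := H58.blk_G V.E V.e₀ T (cfg T b t (ext b v)) b t (ext b v) rfl h1 h2
    have h' : (fun c : (H58.blkOf V.E V.e₀ T b).b => ext b v (c : Tor d M)) = v := ext_restr b v
    rw [h'] at h
    exact h
  · exact H58.blk_kp V.E V.e₀ T (cfg T b t (ext b v)) b t rfl (fun x hx => (h1 x hx).1)
      (fun x hx => (h2 x hx).1)

/-- the young nodes: the clock is at most the clock of the start of the previous super-stage -/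
def Yo (V : Env d M) (n : ℕ) (T : Cfg (Tor d M)) : Finset (Tor d M) :=
  (Al T).filter fun x => T.s x ≤ V.cl (V.kk (n - 1))

/-- the targets: alive, `D(x, B) ≤ 2 L_n` -/
def Q1s (V : Env d M) (n : ℕ) (T : Cfg (Tor d M)) (B : Tor d M) : Finset (Tor d M) :=
  (Al T).filter fun x => V.Γ.D x B ≤ 2 * V.Γ.L n

/-- the nodes of the box with the corner `a` and the side `L` -/
def Qs (T : Cfg (Tor d M)) (a : Tor d M) (L : ℕ) : Finset (Tor d M) :=
  (Al T).filter fun x => LTG.Box a L x

theorem mem_Al {T : Cfg (Tor d M)} {x : Tor d M} : x ∈ Al T ↔ 0 < T.s x := by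
  unfold Al
  rw [Finset.mem_filter]
  exact ⟨fun h => h.2, fun h => ⟨Finset.mem_univ _, h⟩⟩

end Pool.Agent.AHH.H67
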