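import Pool.Agent.Helper67_AHH.FlOf

/-!
# AND2B: plain facts about a good configuration inside a stage (helper67)
-/

set_option autoImplicit false

open scoped BigOperators NNReal ENNReal Matrix

noncomputable section

namespace Pool.Agent.AHH.H67

open Pool.Agent.BED (Tor adj)
open Pool.Agent.LE.QF (BB KK)
open Pool.Agent.AND2B
open Pool.Agent.ANP (Cfg Geo Fc)
open Pool.Agent.AFJ (ind LaR EE)
open Pool.Agent.AFL (Fl)

variable {d M : ℕ} [NeZero M]

omit [NeZero M] in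
theorem Psi_nonneg (Γ : Geo (Tor d M)) [Fintype (Tor d M)] (n : ℕ) (P : Finset (Tor d M))
    (x : Tor d M) : 0 ≤ Psi Γ n P x := by
  unfold Psi om
  exact Finset.sum_nonneg fun _ _ => (Real.exp_pos _).le

/-- the numbers which do not depend on the block: the environment -/
structure EOk (V : Env d M) (k : ℕ) : Prop where
  th : 2 / 3 ≤ (V.th : ℝ) ∧ (V.th : ℝ) < 1
  c₀ : 0 < V.c₀ ∧ V.c₀ ≤ 1 ∧ 1 ≤ V.C₀
  cl : 0 < (V.cl k : ℝ) ∧ (V.cl (k + 1) : ℝ) = V.th * V.cl k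
  e₀ : 0 < V.e₀

section

variable {V : Env d M} {bd : Bud} {n k : ℕ} {T₀ T : Cfg (Tor d M)}
  {run₀ run P : Finset (Tor d M)}

omit [NeZero M] in
theorem EOk.cl' (h : EOk V k) : 0 < (V.cl (k + 1) : ℝ) ∧ (V.cl (k + 1) : ℝ) ≤ V.cl k := by
  rw [h.cl.2]
  have h1 := h.cl.1
  have h2 := h.th.1
  have h3 := h.th.2
  constructor
  · nlinarith
  · nlinarith

theorem md_al (h : Md V bd n k T₀ run₀ P T run) (hE : EOk V k) : Al T = Al T₀ := by
  ext x
  rw [mem_Al, mem_Al]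
  have hth : 0 < V.th := by
    have h1 := hE.th.1
    have h2 : (0 : ℝ) < V.th := by linarith
    exact_mod_cast h2
  rcases h.clk x with h1 | ⟨_, _, h1⟩
  · rw [h1]
  · rw [h1]
    exact ⟨fun h2 => (pos_iff_pos_of_mul_pos h2).1 hth, fun h2 => mul_pos hth h2⟩

theorem md_gau (h : Md V bd n k T₀ run₀ P T run) (hE : EOk V k) :
    ∀ x ∈ Al T, V.c₀ ≤ gg T x ∧ gg T x ≤ V.C₀ ∧ ‖T.mb x‖ ≤ V.C₀ := by
  intro x hx
  rw [md_al h hE] at hx
  obtain ⟨h1, h2, _⟩ := h.st0.gau x hx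
  unfold gg at h1 ⊢
  rw [h.mb]
  exact ⟨h1, ((Complex.im_le_norm _).trans h2), h2⟩

/-- the clocks of the running and of the alive sites -/
theorem fc_run (hF : Fc V.Γ V.kk V.cl V.Dn n k P T run) (hE : EOk V k) :
    (∀ x ∈ run, (V.cl (k + 1) : ℝ) ≤ T.s x ∧ (T.s x : ℝ) ≤ V.cl k) ∧
    (∀ x ∈ run, x ∉ P → T.s x = V.cl k) ∧ (∀ x ∈ run, x ∈ P → T.s x = V.cl (k + 1)) ∧
    ∀ x ∈ Al T, (V.cl (k + 1) : ℝ) ≤ T.s x ∧ (x ∉ run → T.s x ≤ V.cl 0) := by
  obtain ⟨h1, h2⟩ := hE.cl'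
  have hr : ∀ x ∈ run, (V.cl (k + 1) : ℝ) ≤ T.s x ∧ (T.s x : ℝ) ≤ V.cl k := by
    intro x hx
    rw [hF.runs x hx]
    split_ifs
    · exact ⟨le_refl _, h2⟩
    · exact ⟨h2, le_refl _⟩
  refine ⟨hr, fun x hx hP => ?_, fun x hx hP => ?_, fun x hx => ?_⟩
  · rw [hF.runs x hx, if_neg hP]
  · rw [hF.runs x hx, if_pos hP]
  · by_cases hr' : x ∈ run
    · exact ⟨(hr x hr').1, fun h => absurd hr' h⟩
    · rw [mem_Al] at hx
      rcases hF.rest x hr' with h3 | ⟨h3, h4⟩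
      · exact absurd h3 hx.ne'
      · refine ⟨?_, fun _ => h4⟩
        have h5 : ((if x ∈ P then V.cl (k + 1) else V.cl k : ℝ≥0) : ℝ) ≤ T.s x := by
          exact_mod_cast h3
        refine le_trans ?_ h5
        split_ifs
        · exact le_refl _
        · exact h2

theorem fc_alv (hF : Fc V.Γ V.kk V.cl V.Dn n k P T run) (hE : EOk V k) : run ⊆ Al T := by
  intro x hx
  rw [mem_Al]
  have h1 := (fc_run hF hE).1 x hx
  have h2 := hE.cl'.1
  have h3 : (0 : ℝ) < T.s x := by linarith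
  exact_mod_cast h3

/-- absorption -/
theorem kap_pos (he : 0 < V.e₀) (hg : ∀ x ∈ Al T, 0 ≤ gg T x) (x : Tor d M) :
    V.e₀ ≤ kap V.e₀ T x ∧ 0 < kap V.e₀ T x := by
  have h1 : V.e₀ ≤ kap V.e₀ T x := by
    unfold kap
    by_cases hx : x ∈ Al T
    · have := mul_nonneg (T.s x).coe_nonneg (hg x hx)
      unfold gg at this
      linarith [this]
    · rw [mem_Al, not_lt] at hx
      have h2 : T.s x = 0 := le_antisymm hx zero_le
      rw [h2]
      simp
  exact ⟨h1, lt_of_lt_of_le he h1⟩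

/-- the node weights -/
theorem md_ww (h : Md V bd n k T₀ run₀ P T run) (hE : EOk V k)
    (hF : Fc V.Γ V.kk V.cl V.Dn n k P T run) :
    (∀ x ∈ Al T, V.c₀ ^ 2 * V.cl (k + 1) ≤ ww V.e₀ T x ∧
      ∀ c : ℝ, (T.s x : ℝ) ≤ c → ww V.e₀ T x ≤ (V.e₀ + c * V.C₀) * V.C₀) ∧
    (∀ x ∈ Al T, 0 < ww V.e₀ T x ∧ ww V.e₀ T x ≤ ww V.e₀ T₀ x) := by
  have hc := hE.c₀
  have hcl := hE.cl'
  constructor
  · intro x hx
    obtain ⟨h1, h2, _⟩ := md_gau h hE x hx
    have h3 := ((fc_run hF hE).2.2.2 x hx).1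
    have he := hE.e₀
    have hg : 0 ≤ gg T x := by linarith
    constructor
    · unfold ww kap
      have h4 : V.cl (k + 1) * V.c₀ ≤ (T.s x : ℝ) * gg T x :=
        mul_le_mul h3 h1 hc.1.le (T.s x).coe_nonneg
      have h5 : V.cl (k + 1) * V.c₀ ≤ V.e₀ + (T.s x : ℝ) * (T.mb x).im := by
        unfold gg at h4
        linarith
      calc V.c₀ ^ 2 * V.cl (k + 1) = (V.cl (k + 1) * V.c₀) * V.c₀ := by ring
        _ ≤ (V.e₀ + (T.s x : ℝ) * (T.mb x).im) * gg T x :=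
          mul_le_mul h5 h1 hc.1.le (by
            have : 0 ≤ (T.s x : ℝ) * gg T x := mul_nonneg (T.s x).coe_nonneg hg
            unfold gg at this
            linarith)
    · intro c hcs
      unfold ww kap
      have h4 : (T.s x : ℝ) * (T.mb x).im ≤ c * V.C₀ :=
        mul_le_mul hcs h2 hg ((T.s x).coe_nonneg.trans hcs)
      refine mul_le_mul (by linarith) h2 hg ?_
      have : 0 ≤ (T.s x : ℝ) * gg T x := mul_nonneg (T.s x).coe_nonneg hg
      unfold gg at this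
      linarith
  · intro x hx
    obtain ⟨h1, h2, _⟩ := md_gau h hE x hx
    have hg : 0 < gg T x := by linarith
    have hk := (kap_pos (T := T) hE.e₀ (fun y hy => by
      have := (md_gau h hE y hy).1
      linarith) x).2
    refine ⟨mul_pos hk hg, ?_⟩
    have hm : gg T x = gg T₀ x := by unfold gg; rw [h.mb]
    unfold ww
    rw [← hm]
    refine mul_le_mul_of_nonneg_right ?_ hg.le
    unfold kap
    rw [h.mb]
    have hg' : 0 ≤ (T₀.mb x).im := by
      have := hg.le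
      rw [hm] at this
      exact this
    have hs : (T.s x : ℝ) ≤ T₀.s x := by
      rcases h.clk x with h3 | ⟨_, _, h3⟩
      · rw [h3]
      · rw [h3]
        push_cast
        have := hE.th.2
        have h4 := (T₀.s x).coe_nonneg
        have h5 : (0 : ℝ) ≤ T₀.s x := h4
        nlinarith
    nlinarith [mul_le_mul_of_nonneg_right hs hg']

end

end Pool.Agent.AHH.H67
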