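import Pool.Agent.Helper67_AHH.Form
import Pool.Agent.Helper61_AHH.Zn
import Pool.Agent.Helper17_AHH.Par

/-!
# AND2B: the numbers of the form for the block lemma (helper67)
-/

set_option autoImplicit false

open scoped BigOperators NNReal

noncomputable section

namespace Pool.Agent.AHH.H67

open Pool.Agent.BED (Tor)
open Pool.Agent.AND2B (Ev Fld)
open Pool.Agent.AND.Num
open Pool.Agent.AHH.H61
open Pool.Agent.AHH.H17 (parZ kg)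
open Pool.Agent.NAS (CS)
open Pool.Agent.MAJ (S0 S2)

/-- a level `J` with `4 ^ J ≤ x ^ (-9/10)` and `2 ^ (-J) ≤ 2 x ^ (9/20)` -/
theorem exJ {x : ℝ} (hx : 0 < x) (hx1 : x ≤ 1) :
    ∃ J : ℕ, (4 : ℝ) ^ J ≤ x ^ (-(9 / 10) : ℝ) ∧ (1 / 2 : ℝ) ^ J ≤ 2 * x ^ (9 / 20 : ℝ) := by
  have hy : 1 ≤ x ^ (-(9 / 10) : ℝ) :=
    Real.one_le_rpow_of_pos_of_le_one_of_nonpos hx hx1 (by norm_num)
  obtain ⟨J, h1, h2⟩ := exists_nat_pow_near hy (by norm_num : (1 : ℝ) < 4)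
  refine ⟨J, h1, ?_⟩
  have h3 : x ^ (-(9 / 10) : ℝ) = (x ^ (-(9 / 20) : ℝ)) ^ 2 := by
    rw [← Real.rpow_natCast, ← Real.rpow_mul hx.le]
    norm_num
  have h4 : (4 : ℝ) ^ (J + 1) = (2 ^ (J + 1)) ^ 2 := by
    rw [← pow_mul, mul_comm (J + 1) 2, pow_mul]
    norm_num
  rw [h3, h4] at h2
  have h5 : x ^ (-(9 / 20) : ℝ) < 2 ^ (J + 1) :=
    lt_of_pow_lt_pow_left₀ 2 (by positivity) h2
  have h6 : x ^ (-(9 / 20) : ℝ) * x ^ (9 / 20 : ℝ) = 1 := by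
    rw [← Real.rpow_add hx]
    norm_num
  have hp : 0 < x ^ (9 / 20 : ℝ) := Real.rpow_pos_of_pos hx _
  have h7 : 1 ≤ 2 ^ (J + 1) * x ^ (9 / 20 : ℝ) := by
    rw [← h6]
    exact mul_le_mul_of_nonneg_right h5.le hp.le
  have h8 : (1 / 2 : ℝ) ^ J = (1 / 2 : ℝ) ^ J * 1 := by ring
  rw [h8]
  have h9 : (1 / 2 : ℝ) ^ J * 1 ≤ (1 / 2 : ℝ) ^ J * (2 ^ (J + 1) * x ^ (9 / 20 : ℝ)) :=
    mul_le_mul_of_nonneg_left h7 (by positivity)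
  refine h9.trans (le_of_eq ?_)
  have h10 : (1 / 2 : ℝ) ^ J * 2 ^ J = 1 := by
    rw [← mul_pow]
    norm_num
  calc (1 / 2 : ℝ) ^ J * (2 ^ (J + 1) * x ^ (9 / 20 : ℝ)) =
      ((1 / 2 : ℝ) ^ J * 2 ^ J) * (2 * x ^ (9 / 20 : ℝ)) := by ring
    _ = 2 * x ^ (9 / 20 : ℝ) := by rw [h10, one_mul]

/-- the boundary terms of the big cube -/
theorem cube_tail {s : ℝ} (hs : 0 < s) {d kB : ℕ} (hd : 3 ≤ d)
    (hX : s ^ (-(5 : ℝ)) ≤ (2 : ℝ) ^ kB) :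
    1 / ((2 : ℝ) ^ kB) ^ d ≤ s ^ 15 ∧ (4 : ℝ) ^ kB / ((2 : ℝ) ^ kB) ^ d ≤ s ^ 5 := by
  have hX1 : (1 : ℝ) ≤ 2 ^ kB := one_le_pow₀ (by norm_num)
  have h5 : s ^ (-(5 : ℝ)) = (s ^ 5)⁻¹ := by
    rw [Real.rpow_neg hs.le]
    congr 1
    exact_mod_cast Real.rpow_natCast s 5
  rw [h5] at hX
  have hs5 : 0 < s ^ 5 := by positivity
  have hXi : ((2 : ℝ) ^ kB)⁻¹ ≤ s ^ 5 := by
    rw [inv_le_comm₀ (by positivity) hs5]
    exact hX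
  have h3 : ((2 : ℝ) ^ kB) ^ 3 ≤ ((2 : ℝ) ^ kB) ^ d := pow_le_pow_right₀ hX1 hd
  have hXp : (0 : ℝ) < ((2 : ℝ) ^ kB) ^ 3 := by positivity
  constructor
  · calc 1 / ((2 : ℝ) ^ kB) ^ d ≤ 1 / ((2 : ℝ) ^ kB) ^ 3 := one_div_le_one_div_of_le hXp h3
      _ = (((2 : ℝ) ^ kB)⁻¹) ^ 3 := by rw [one_div, inv_pow]
      _ ≤ (s ^ 5) ^ 3 := pow_le_pow_left₀ (by positivity) hXi 3
      _ = s ^ 15 := by ring
  · have h4 : (4 : ℝ) ^ kB = ((2 : ℝ) ^ kB) ^ 2 := by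
      rw [← pow_mul, mul_comm kB 2, pow_mul]
      norm_num
    calc (4 : ℝ) ^ kB / ((2 : ℝ) ^ kB) ^ d ≤ (4 : ℝ) ^ kB / ((2 : ℝ) ^ kB) ^ 3 :=
          div_le_div_of_nonneg_left (by positivity) hXp h3
      _ = ((2 : ℝ) ^ kB)⁻¹ := by
          rw [h4]
          field_simp
      _ ≤ s ^ 5 := hXi

/-- the bound of `S2` (and of `S0`) -/
theorem S2_le {d kB J : ℕ} (hd : 3 ≤ d) {c s b0 m : ℝ} (hc : 0 < c) (hs : 0 < s)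
    (hb0 : 0 < b0) (hb : c / 2 ≤ b0) (hm : c ^ 2 / 16 * s ≤ m)
    (hX : s ^ (-(5 : ℝ)) ≤ (2 : ℝ) ^ kB) :
    S2 d kB J b0 m ≤ 4 * CS d / b0 * (1 / 2 : ℝ) ^ J + 256 / c ^ 2 * s ^ 14 +
      128 * CS d / c * s ^ 5 ∧
    S0 d kB J b0 m ≤ 2 * CS d / b0 * (1 / 2 : ℝ) ^ J + 256 / c ^ 2 * s ^ 14 +
      128 * CS d / c * s ^ 5 := by
  have hCS : 0 < CS d := MAJ.CS_pos hd
  obtain ⟨t1, t2⟩ := cube_tail hs hd hX
  have hXd : (0 : ℝ) < ((2 : ℝ) ^ kB) ^ d := by positivity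
  have hmp : 0 < m := lt_of_lt_of_le (by positivity) hm
  have h1 : ((1 / 2 : ℝ) ^ (d - 2)) ^ J ≤ (1 / 2 : ℝ) ^ J := by
    refine pow_le_pow_left₀ (by positivity) ?_ J
    calc (1 / 2 : ℝ) ^ (d - 2) ≤ (1 / 2 : ℝ) ^ 1 :=
          pow_le_pow_of_le_one (by norm_num) (by norm_num) (by omega)
      _ = 1 / 2 := pow_one _
  have h2 : 16 / (m * ((2 : ℝ) ^ kB) ^ d) ≤ 256 / c ^ 2 * s ^ 14 := by
    have e1 : 16 / (m * ((2 : ℝ) ^ kB) ^ d) = 16 / m * (1 / ((2 : ℝ) ^ kB) ^ d) := by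
      field_simp
    have e2 : 16 / m ≤ 16 / (c ^ 2 / 16 * s) :=
      div_le_div_of_nonneg_left (by norm_num) (by positivity) hm
    rw [e1]
    calc 16 / m * (1 / ((2 : ℝ) ^ kB) ^ d) ≤ 16 / (c ^ 2 / 16 * s) * s ^ 15 :=
          mul_le_mul e2 t1 (by positivity) (by positivity)
      _ = 256 / c ^ 2 * s ^ 14 := by
          field_simp
          norm_num
  have h3 : 64 * CS d * 4 ^ kB / (b0 * ((2 : ℝ) ^ kB) ^ d) ≤ 128 * CS d / c * s ^ 5 := by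
    have e1 : 64 * CS d * 4 ^ kB / (b0 * ((2 : ℝ) ^ kB) ^ d) =
        64 * CS d / b0 * (4 ^ kB / ((2 : ℝ) ^ kB) ^ d) := by
      field_simp
    have e2 : 64 * CS d / b0 ≤ 64 * CS d / (c / 2) :=
      div_le_div_of_nonneg_left (by positivity) (by positivity) hb
    rw [e1]
    calc 64 * CS d / b0 * (4 ^ kB / ((2 : ℝ) ^ kB) ^ d) ≤ 64 * CS d / (c / 2) * s ^ 5 :=
          mul_le_mul e2 t2 (by positivity) (by positivity)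
      _ = 128 * CS d / c * s ^ 5 := by
          field_simp
          norm_num
  have h4 : 4 * CS d / b0 * ((1 / 2 : ℝ) ^ (d - 2)) ^ J ≤ 4 * CS d / b0 * (1 / 2 : ℝ) ^ J :=
    mul_le_mul_of_nonneg_left h1 (by positivity)
  have h5 : 2 * CS d / b0 * ((1 / 2 : ℝ) ^ (d - 2)) ^ J ≤ 2 * CS d / b0 * (1 / 2 : ℝ) ^ J :=
    mul_le_mul_of_nonneg_left h1 (by positivity)
  have h6 : 8 / (m * ((2 : ℝ) ^ kB) ^ d) ≤ 16 / (m * ((2 : ℝ) ^ kB) ^ d) :=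
    div_le_div_of_nonneg_right (by norm_num) (by positivity)
  have h7 : 32 * CS d * 4 ^ kB / (b0 * ((2 : ℝ) ^ kB) ^ d) ≤
      64 * CS d * 4 ^ kB / (b0 * ((2 : ℝ) ^ kB) ^ d) :=
    div_le_div_of_nonneg_right (by
      have : (0 : ℝ) < 4 ^ kB := by positivity
      nlinarith [mul_pos hCS this]) (by positivity)
  unfold S2 S0
  exact ⟨by linarith, by linarith⟩

/-- the smallness of the powers of the clock -/
def FP (CSd cp c C : ℝ) (α : ℕ) (s : ℝ) : Prop :=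
  s ≤ 1 ∧ 2 * s ^ (kaf α / 2) ≤ 1 / 4 * s ^ (kaf α / 4) ∧ cp * s ^ kaf α ≤ 1 / 4 * s ^ (kaf α / 4) ∧
  24 * CSd * C ^ 2 / c * s ^ (1 / 10 : ℝ) ≤ 1 / 2 * s ^ (kaf α / 4) ∧
  48 * CSd * C ^ 2 / c * s ^ (1 / 10 : ℝ) ≤ 1 / 2 * s ^ (0 : ℝ) ∧
  48 * CSd / c * s ^ (1 - 8 * es) ≤ 1 * s ^ (1 / 25 : ℝ) ∧
  256 / c ^ 2 * s ^ (14 : ℝ) ≤ 1 / 3 * s ^ (1 : ℝ) ∧
  128 * CSd / c * s ^ (5 : ℝ) ≤ 1 / 3 * s ^ (1 : ℝ) ∧
  8 * CSd / c * s ^ (0 : ℝ) ≤ 1 / 3 * s ^ (-1 : ℝ) ∧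
  8 * CSd / c * s ^ (9 / 20 : ℝ) ≤ 1 / 3 * s ^ (1 / 4 + kaf α / 4)

theorem fp_small (CSd cp c C : ℝ) (α : ℕ) (hα : 2 ≤ α) : Small (FP CSd cp c C α) := by
  have hk := kaf_pos α
  have hk' := kaf_le hα
  have he : es = 1 / 10000 := rfl
  exact (small_le 1 one_pos).and ((small_pow' 2 (1 / 4) _ _ (by norm_num) (by linarith)).and
    ((small_pow' cp (1 / 4) _ _ (by norm_num) (by linarith)).and
    ((small_pow' _ (1 / 2) _ _ (by norm_num) (by linarith)).and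
    ((small_pow' _ (1 / 2) _ _ (by norm_num) (by norm_num)).and
    ((small_pow' _ 1 _ _ (by norm_num) (by rw [he]; norm_num)).and
    ((small_pow' _ (1 / 3) _ _ (by norm_num) (by norm_num)).and
    ((small_pow' _ (1 / 3) _ _ (by norm_num) (by norm_num)).and
    ((small_pow' _ (1 / 3) _ _ (by norm_num) (by norm_num)).and
    (small_pow' _ (1 / 3) _ _ (by norm_num) (by linarith))))))))))

end Pool.Agent.AHH.H67
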