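import Pool.Agent.Helper67_AHH.Bas
import Pool.Agent.Helper67_MAJ.HSF

/-!
# AND2B: the dual lower bounds of the form for the block lemma (helper67)
-/

set_option autoImplicit false

open scoped BigOperators NNReal ENNReal Matrix

noncomputable section

namespace Pool.Agent.AHH.H67

open Pool.Agent.BED (Tor adj)
open Pool.Agent.LE.QF (BB KK qf)
open Pool.Agent.AND2B
open Pool.Agent.ANP (Cfg Geo Fc)
open Pool.Agent.AFJ (ind LaR EE)
open Pool.Agent.AFL (Fl)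
open Pool.Agent.LTG (Fm Bd sT tT qd Box)
open Pool.Agent.NAS (CS)
open Pool.Agent.MAJ (S0 S2)

variable {d M : ℕ} [NeZero M]

/-- the numbers of the form: `b0 = D₀ / 2`, `m = c₀² cl (k + 1) / 2`, `kB` the exponent of the big
cube, `J1`, `J2` the levels of the young and of the running nodes -/
structure FNum (V : Env d M) (bd : Bud) (n k kB J1 J2 : ℕ) (p : Par) : Prop where
  D₀ : 0 < V.D₀
  nn : 0 ≤ bd.nn n k
  eps : 0 ≤ (bd.q n k).eps
  r2 : (bd.q n k).rho + bd.nn n k * V.Cp ≤ 1 / 2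
  e2 : (bd.q n k).eps + bd.nn n k * V.Cp ≤ 1 / 2
  run : (bd.q n k).eps + bd.nn n k * V.Cp +
    2 * CS d * 4 ^ J2 / (V.D₀ / 2) * ((V.e₀ + V.cl k * V.C₀) * V.C₀) ≤ p.ε
  yng : 4 * CS d * 4 ^ J1 / (V.D₀ / 2) *
    ((V.e₀ + max (V.cl k : ℝ) (V.cl (V.kk (n - 1))) * V.C₀) * V.C₀) ≤ 1 / 2
  old : 4 * CS d * 4 ^ 0 / (V.D₀ / 2) *
    ((V.e₀ + max (V.cl k : ℝ) (V.cl 0) * V.C₀) * V.C₀) ≤ 1 / 2
  s1 : S2 d kB J1 (V.D₀ / 2) (V.c₀ ^ 2 * V.cl (k + 1) / 2) ≤ p.s1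
  s3 : S2 d kB 0 (V.D₀ / 2) (V.c₀ ^ 2 * V.cl (k + 1) / 2) ≤ p.s3
  s2 : S0 d kB J2 (V.D₀ / 2) (V.c₀ ^ 2 * V.cl (k + 1) / 2) ≤ p.s2

section

variable {V : Env d M} {bd : Bud} {n k kB J1 J2 : ℕ} {p : Par} {T₀ T : Cfg (Tor d M)}
  {run₀ run P : Finset (Tor d M)}

/-- the form bounds with numbers -/
theorem md_frm (h : Md V bd n k T₀ run₀ P T run) (hE : EOk V k)
    (hF : Fc V.Γ V.kk V.cl V.Dn n k P T run) (hN : FNum V bd n k kB J1 J2 p)
    (hPsi : ∀ x, Psi V.Γ n P x ≤ V.Cp) :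
    ∃ (εl εu : Tor d M → ℝ) (bl bu : Bd d M → ℝ),
      Fm sT tT (Al T) (ww V.e₀ T) εl εu bl bu (qd (Ef V.E V.e₀ T)) ∧
      (∀ x ∈ Al T, 0 ≤ εl x ∧ εl x ≤ 1 / 2) ∧
      (∀ x ∈ run, εl x ≤ (bd.q n k).eps + bd.nn n k * V.Cp) ∧
      ∀ e, V.D₀ / 2 ≤ bl e := by
  obtain ⟨εl, εu, bl, bu, h1, h2, h3⟩ := h.frm
  have hPn : ∀ x, bd.nn n k * Psi V.Γ n P x ≤ bd.nn n k * V.Cp := fun x =>
    mul_le_mul_of_nonneg_left (hPsi x) hN.nn
  have hw := (md_ww h hE hF).2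
  have hrun : ∀ x ∈ run, εl x ≤ (bd.q n k).eps + bd.nn n k * V.Cp := by
    intro x hx
    have hxA : x ∈ Al T := fc_alv hF hE hx
    have h4 := (h2 x hxA).2.1
    dsimp only at h4
    rw [if_pos hx] at h4
    obtain ⟨hw1, hw2⟩ := hw x hxA
    have h5 : ww V.e₀ T x / ww V.e₀ T₀ x ≤ 1 := by
      rw [div_le_one (by linarith)]
      exact hw2
    have h6 : (bd.q n k).eps * (ww V.e₀ T x / ww V.e₀ T₀ x) ≤ (bd.q n k).eps * 1 :=
      mul_le_mul_of_nonneg_left h5 hN.eps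
    linarith [hPn x]
  refine ⟨εl, εu, bl, bu, h1, fun x hx => ⟨(h2 x hx).1, ?_⟩, hrun, fun e => ?_⟩
  · by_cases hr : x ∈ run
    · exact (hrun x hr).trans hN.e2
    · have h4 := (h2 x hx).2.1
      dsimp only at h4
      rw [if_neg hr] at h4
      linarith [hPn x, hN.r2]
  · have h4 := (h3 e).1
    have h5 := hPn (sT e)
    have h6 := hN.r2
    have h7 := hN.D₀
    nlinarith

/-- the two dual lower bounds -/
theorem md_hS (hd : 3 ≤ d) (h : Md V bd n k T₀ run₀ P T run) (hE : EOk V k)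
    (hF : Fc V.Γ V.kk V.cl V.Dn n k P T run) (hN : FNum V bd n k kB J1 J2 p)
    (hPsi : ∀ x, Psi V.Γ n P x ≤ V.Cp) (a : Tor d M) (hkB : 2 ^ kB ≤ M)
    (Q : Finset (Tor d M)) (hQ : ∀ x ∈ Q, x ∈ Al T ∧ Box a (2 ^ kB) x)
    (hZ : ((2 : ℝ) ^ kB) ^ d ≤
      4 * ((Finset.univ.filter fun x => Box a (2 ^ kB) x ∧ x ∈ Al T ∧ x ∉ Q).card : ℝ)) :
    (∀ f φ : Tor d M → ℝ, (∀ x, x ∉ Q → f x = 0) → (∀ x, x ∉ Q → φ x = 0) →
      2 * ∑ x, f x * φ x - 2 * ∑ x ∈ Q, φ x ^ 2 / ww V.e₀ T x -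
        p.s1 * (∑ x ∈ Q ∩ Yo V n T, |φ x|) ^ 2 - p.s3 * (∑ x ∈ Q \ Yo V n T, |φ x|) ^ 2 ≤
          qd (Ef V.E V.e₀ T) f) ∧
    ∀ f φ : Tor d M → ℝ, (∀ x, x ∉ Q → f x = 0) → (∀ x, x ∉ run ∩ Q → φ x = 0) →
      2 * ∑ x, f x * φ x - (1 + p.ε) * ∑ x ∈ run ∩ Q, φ x ^ 2 / ww V.e₀ T x -
        p.s2 * (∑ x, |φ x|) ^ 2 ≤ qd (Ef V.E V.e₀ T) f := by
  obtain ⟨εl, εu, bl, bu, hFm, hel, helr, hbl⟩ := md_frm h hE hF hN hPsi
  have hw := md_ww h hE hF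
  have hwp : ∀ x ∈ Al T, 0 < ww V.e₀ T x := fun x hx => (hw.2 x hx).1
  have hD := hN.D₀
  have hCS : 0 < CS d := MAJ.CS_pos hd
  have hcl := hE.cl'.1
  have hc₀ := hE.c₀.1
  have hm : 0 < V.c₀ ^ 2 * V.cl (k + 1) / 2 := by positivity
  have hZ' : ∀ x ∈ (Finset.univ.filter fun x => Box a (2 ^ kB) x ∧ x ∈ Al T ∧ x ∉ Q),
      Box a (2 ^ kB) x ∧ x ∉ Q ∧ x ∈ Al T ∧
        V.c₀ ^ 2 * V.cl (k + 1) / 2 * (1 + εl x) ≤ ww V.e₀ T x := by
    intro x hx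
    rw [Finset.mem_filter] at hx
    obtain ⟨-, h1, h2, h3⟩ := hx
    refine ⟨h1, h3, h2, ?_⟩
    have h4 := (hw.1 x h2).1
    have h5 := (hel x h2).2
    have h6 : 0 < V.c₀ ^ 2 * V.cl (k + 1) := by positivity
    nlinarith
  have hfc := fc_run hF hE
  constructor
  · intro f φ hf hφ
    have h1 := MAJ.hsf1 hd a kB J1 0 hkB hFm hwp (fun x hx => (hel x hx).1)
      (fun e => by linarith [hbl e]) (b0 := V.D₀ / 2) (m := V.c₀ ^ 2 * V.cl (k + 1) / 2)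
      (by linarith) hm (fun e _ _ => hbl e) (Q := Q) (O := Q \ Yo V n T)
      (fun x hx => (hQ x hx).1) (fun x hx => (hQ x hx).2) hZ' hZ
      (fun x hx hO => by
        have hxA := (hQ x hx).1
        have hY : x ∈ Yo V n T := by
          by_contra hc
          exact hO (Finset.mem_sdiff.2 ⟨hx, hc⟩)
        unfold Yo at hY
        have h2 : (T.s x : ℝ) ≤ V.cl (V.kk (n - 1)) := by
          exact_mod_cast (Finset.mem_filter.1 hY).2
        have h3 := (hw.1 x hxA).2 (max (V.cl k : ℝ) (V.cl (V.kk (n - 1))))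
          (h2.trans (le_max_right _ _))
        have h4 : 0 ≤ 4 * CS d * 4 ^ J1 / (V.D₀ / 2) := by positivity
        have h5 := mul_le_mul_of_nonneg_left h3 h4
        linarith [(hel x hxA).2, hN.yng])
      (fun x hx hO => by
        have hxA := (hQ x hx).1
        have h2 : (T.s x : ℝ) ≤ max (V.cl k : ℝ) (V.cl 0) := by
          by_cases hr : x ∈ run
          · exact (hfc.1 x hr).2.trans (le_max_left _ _)
          · refine le_trans ?_ (le_max_right _ _)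
            exact_mod_cast (hfc.2.2.2 x hxA).2 hr
        have h3 := (hw.1 x hxA).2 _ h2
        have h4 : 0 ≤ 4 * CS d * 4 ^ 0 / (V.D₀ / 2) := by positivity
        have h5 := mul_le_mul_of_nonneg_left h3 h4
        linarith [(hel x hxA).2, hN.old])
      hN.s1 hN.s3 f φ hf hφ
    have e1 : Q \ (Q \ Yo V n T) = Q ∩ Yo V n T := by
      ext x
      simp only [Finset.mem_sdiff, Finset.mem_inter]
      tauto
    have e2 : Q ∩ (Q \ Yo V n T) = Q \ Yo V n T := by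
      ext x
      simp only [Finset.mem_sdiff, Finset.mem_inter]
      tauto
    rw [e1, e2] at h1
    exact h1
  · intro f φ hf hφ
    exact MAJ.hsf2 hd a kB J2 hkB hFm hwp (fun x hx => (hel x hx).1)
      (fun e => by linarith [hbl e]) (b0 := V.D₀ / 2) (m := V.c₀ ^ 2 * V.cl (k + 1) / 2)
      (by linarith) hm (fun e _ _ => hbl e) (Q := Q) (R := run ∩ Q)
      (fun x hx => (hQ x hx).1) (fun x hx => (hQ x hx).2) Finset.inter_subset_right hZ' hZ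
      (fun x hx => by
        have hr := (Finset.mem_inter.1 hx).1
        have hxA := (hQ x (Finset.mem_inter.1 hx).2).1
        have h3 := (hw.1 x hxA).2 _ (hfc.1 x hr).2
        have h4 : 0 ≤ 2 * CS d * 4 ^ J2 / (V.D₀ / 2) := by positivity
        have h5 := mul_le_mul_of_nonneg_left h3 h4
        linarith [helr x hr, hN.run])
      hN.s2 f φ hf hφ

end

end Pool.Agent.AHH.H67
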